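import Pool.Agent.helper68.Cyc.Exp

/-!
# Parseval identity on circles
-/

open Finset

namespace Pool.Agent.helper68.Cyc

/-- the point `e^{iθ}` -/
noncomputable def cis (θ : ℝ) : ℂ := Complex.exp (θ * Complex.I)

theorem norm_cis (θ : ℝ) : ‖cis θ‖ = 1 := Complex.norm_exp_ofReal_mul_I θ

theorem continuous_cis : Continuous cis := by
  unfold cis; fun_prop

theorem cis_pow_mul_conj (θ : ℝ) (n m : ℕ) :
    cis θ ^ n * (starRingEnd ℂ) (cis θ ^ m) = Complex.exp ((((n : ℤ) - (m : ℤ) : ℤ) : ℂ) *
      Complex.I * θ) := by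
  unfold cis
  rw [map_pow, ← Complex.exp_conj, ← Complex.exp_nat_mul, ← Complex.exp_nat_mul, ← Complex.exp_add]
  congr 1
  rw [map_mul, Complex.conj_ofReal, Complex.conj_I]
  push_cast
  ring

theorem integral_exp_int (k : ℤ) :
    ∫ θ in (0 : ℝ)..(2 * Real.pi), Complex.exp ((k : ℂ) * Complex.I * θ) =
      if k = 0 then (2 * Real.pi : ℂ) else 0 := by
  split_ifs with hk
  · subst hk; simp
  · have hc : (k : ℂ) * Complex.I ≠ 0 :=
      mul_ne_zero (Int.cast_ne_zero.mpr hk) Complex.I_ne_zero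
    rw [integral_exp_mul_complex hc]
    have h1 : Complex.exp ((k : ℂ) * Complex.I * ((2 * Real.pi : ℝ) : ℂ)) = 1 := by
      rw [Complex.exp_eq_one_iff]
      exact ⟨k, by push_cast; ring⟩
    rw [h1]
    simp

theorem parseval_finite (N : ℕ) (a : ℕ → ℂ) :
    ∫ θ in (0 : ℝ)..(2 * Real.pi), ‖∑ n ∈ range N, a n * cis θ ^ n‖ ^ 2 =
      2 * Real.pi * ∑ n ∈ range N, ‖a n‖ ^ 2 := by
  have hc : ∀ θ : ℝ, ((‖∑ n ∈ range N, a n * cis θ ^ n‖ ^ 2 : ℝ) : ℂ) =
      ∑ n ∈ range N, ∑ m ∈ range N, (a n * (starRingEnd ℂ) (a m)) *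
        Complex.exp ((((n : ℤ) - (m : ℤ) : ℤ) : ℂ) * Complex.I * θ) := by
    intro θ
    rw [Complex.ofReal_pow, ← Complex.mul_conj', map_sum, Finset.sum_mul_sum]
    apply Finset.sum_congr rfl
    intro n _
    apply Finset.sum_congr rfl
    intro m _
    rw [← cis_pow_mul_conj, map_mul]
    ring
  apply Complex.ofReal_injective
  rw [← intervalIntegral.integral_ofReal]
  simp_rw [hc]
  rw [intervalIntegral.integral_finsetSum]
  · have h1 : ∀ n ∈ range N, ∫ θ in (0 : ℝ)..(2 * Real.pi), ∑ m ∈ range N,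
        (a n * (starRingEnd ℂ) (a m)) *
        Complex.exp ((((n : ℤ) - (m : ℤ) : ℤ) : ℂ) * Complex.I * θ) =
        (2 * Real.pi : ℂ) * ((‖a n‖ ^ 2 : ℝ) : ℂ) := by
      intro n hn
      rw [intervalIntegral.integral_finsetSum]
      · rw [Finset.sum_eq_single_of_mem n hn]
        · rw [intervalIntegral.integral_const_mul, integral_exp_int, if_pos (by simp),
            Complex.mul_conj']
          push_cast; ring
        · intro m _ hm
          rw [intervalIntegral.integral_const_mul, integral_exp_int, if_neg, mul_zero]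
          intro h
          apply hm
          omega
      · intro m _
        apply Continuous.intervalIntegrable
        fun_prop
    rw [Finset.sum_congr rfl h1, ← Finset.mul_sum]
    push_cast
    rfl
  · intro n _
    apply Continuous.intervalIntegrable
    fun_prop

theorem continuous_tsum_cis {a : ℕ → ℂ} (ha : Summable fun n => ‖a n‖) :
    Continuous fun θ : ℝ => ∑' n, a n * cis θ ^ n := by
  refine continuous_tsum (fun n => ?_) ha (fun n θ => ?_)
  · exact continuous_const.mul (continuous_cis.pow n)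
  · rw [norm_mul, norm_pow, norm_cis, one_pow, mul_one]

theorem parseval {a : ℕ → ℂ} (ha : Summable fun n => ‖a n‖) :
    Summable (fun n => ‖a n‖ ^ 2) ∧
    ∫ θ in (0 : ℝ)..(2 * Real.pi), ‖∑' n, a n * cis θ ^ n‖ ^ 2 =
      2 * Real.pi * ∑' n, ‖a n‖ ^ 2 := by
  have hsq : Summable (fun n => ‖a n‖ ^ 2) := by
    have h1 := ha.tendsto_atTop_zero
    have h2 : ∀ᶠ n in Filter.atTop, ‖a n‖ < 1 := h1.eventually (gt_mem_nhds one_pos)
    refine Summable.of_norm_bounded_eventually_nat ha ?_
    filter_upwards [h2] with n hn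
    rw [Real.norm_of_nonneg (by positivity)]
    nlinarith [norm_nonneg (a n)]
  refine ⟨hsq, ?_⟩
  have hlim1 : Filter.Tendsto (fun N => ∫ θ in (0 : ℝ)..(2 * Real.pi),
      ‖∑ n ∈ range N, a n * cis θ ^ n‖ ^ 2) Filter.atTop
      (nhds (∫ θ in (0 : ℝ)..(2 * Real.pi), ‖∑' n, a n * cis θ ^ n‖ ^ 2)) := by
    apply intervalIntegral.tendsto_integral_filter_of_dominated_convergence
      (fun _ => (∑' n, ‖a n‖) ^ 2)
    · refine Filter.Eventually.of_forall fun N => ?_
      apply Continuous.aestronglyMeasurable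
      have : Continuous fun θ : ℝ => ∑ n ∈ range N, a n * cis θ ^ n :=
        continuous_finsetSum _ fun n _ => continuous_const.mul (continuous_cis.pow n)
      exact this.norm.pow 2
    · refine Filter.Eventually.of_forall fun N => ?_
      refine Filter.Eventually.of_forall fun θ _ => ?_
      rw [Real.norm_of_nonneg (by positivity)]
      gcongr
      calc ‖∑ n ∈ range N, a n * cis θ ^ n‖ ≤ ∑ n ∈ range N, ‖a n * cis θ ^ n‖ := norm_sum_le _ _
        _ = ∑ n ∈ range N, ‖a n‖ := by
            apply Finset.sum_congr rfl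
            intro n _
            rw [norm_mul, norm_pow, norm_cis, one_pow, mul_one]
        _ ≤ _ := ha.sum_le_tsum _ fun _ _ => norm_nonneg _
    · exact intervalIntegrable_const
    · refine Filter.Eventually.of_forall fun θ _ => ?_
      have h1 : Summable fun n => a n * cis θ ^ n := by
        apply Summable.of_norm
        simp_rw [norm_mul, norm_pow, norm_cis, one_pow, mul_one]
        exact ha
      exact (h1.hasSum.tendsto_sum_nat.norm.pow 2)
  have hlim2 : Filter.Tendsto (fun N => 2 * Real.pi * ∑ n ∈ range N, ‖a n‖ ^ 2) Filter.atTop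
      (nhds (2 * Real.pi * ∑' n, ‖a n‖ ^ 2)) :=
    (hsq.hasSum.tendsto_sum_nat).const_mul _
  simp_rw [parseval_finite] at hlim1
  exact tendsto_nhds_unique hlim1 hlim2

end Pool.Agent.helper68.Cyc
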