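import Pool.Agent.helper68.Cyc.Step

/-!
# The data
-/

open Finset Polynomial Filter

namespace Pool.Agent.helper68.Cyc

/-- coefficient bound at the base -/
theorem exists_base (p : Polynomial ℂ) : ∃ J : ℕ, ∀ z : ℂ, ‖z‖ ≤ rho J →
    ‖p.eval z‖ ≤ Real.exp (4 * yy J) := by
  obtain ⟨J, hJ⟩ := exists_nat_ge (l1 p)
  refine ⟨J, fun z hz => ?_⟩
  have h1 := norm_eval_le_l1 p (hz.trans (rho_lt_one J).le)
  have h2 : (J : ℝ) ≤ yy J := by
    have h3 := le_ee J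
    have h4 := yy_ge_ee J
    have : J ≤ yy J := by omega
    exact_mod_cast this
  have h5 := Real.add_one_le_exp (4 * (yy J : ℝ))
  have h6 := yy_real_pos J
  linarith

theorem descend {p : Polynomial ℂ} {I J : ℕ} (hI : J + 1 ≤ I) {ε : ℝ} (hε : ε ≤ 1)
    (hp : ∀ r : ℝ, 0 < r → r < 1 → (1 - r ^ 2) *
      avg (fun z => p.eval z * Complex.exp ((HH I).eval z) - 1) r ≤ ε)
    (hbase : ∀ z, ‖z‖ ≤ rho J → ‖p.eval z‖ ≤ Real.exp (4 * yy J)) :
    ∀ z, ‖z‖ ≤ rho 0 → ‖p.eval z‖ ≤ Real.exp (4 * yy 0) := by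
  induction J with
  | zero => exact hbase
  | succ k ih =>
    apply ih (by omega)
    intro z hz
    exact step (by omega) hε (hp _ (rho_pos _) (rho_lt_one _)) hbase hz

theorem final_bound (p : Polynomial ℂ) : ∀ᶠ I in atTop, ∃ r : ℝ, 0 < r ∧ r < 1 ∧
    del 0 ^ 2 / 32 < (1 - r ^ 2) *
      avg (fun z => p.eval z * Complex.exp ((HH I).eval z) - 1) r := by
  obtain ⟨J, hJ⟩ := exists_base p
  filter_upwards [eventually_ge_atTop (J + 1)] with I hI
  by_contra hcon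
  push Not at hcon
  set ε := del 0 ^ 2 / 32 with hε
  have hd := del_pos 0
  have hd2 := del_le 0
  have hε1 : ε ≤ 1 := by
    rw [hε, div_le_one (by norm_num)]
    nlinarith
  have h0 := descend hI hε1 hcon hJ (rho 0 : ℂ)
    (by rw [Complex.norm_real, Real.norm_of_nonneg (rho_pos 0).le])
  have h1 := special_point (I := I) (by omega)
  set u : ℂ → ℂ := fun z => p.eval z * Complex.exp ((HH I).eval z) - 1 with hu
  -- the value at `rho 0`
  have h2 : ‖p.eval (rho 0 : ℂ) * Complex.exp ((HH I).eval (rho 0 : ℂ))‖ ≤ 1 / 2 := by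
    rw [norm_mul, Complex.norm_exp]
    have hy := yy_real 0
    calc ‖p.eval (rho 0 : ℂ)‖ * Real.exp ((HH I).eval (rho 0 : ℂ)).re
        ≤ Real.exp (4 * yy 0) * Real.exp (2 - (yy 0 : ℝ) ^ 7 / 4) := by gcongr
      _ = Real.exp (4 * yy 0 + (2 - (yy 0 : ℝ) ^ 7 / 4)) := by rw [Real.exp_add]
      _ ≤ Real.exp (-1) := by
          apply Real.exp_le_exp.mpr
          have h3 : (yy 0 : ℝ) * 65536 ≤ (yy 0 : ℝ) ^ 7 := by
            have h4 : (65536 : ℝ) ≤ (yy 0 : ℝ) ^ 6 := by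
              calc (65536 : ℝ) ≤ yy 0 := hy
                _ ≤ _ := le_self_pow₀ (by linarith) (by norm_num)
            calc (yy 0 : ℝ) * 65536 ≤ (yy 0 : ℝ) * (yy 0 : ℝ) ^ 6 := by gcongr
              _ = _ := by ring
          linarith
      _ ≤ 1 / 2 := by
          rw [Real.exp_neg, ← one_div]
          apply one_div_le_one_div_of_le two_pos
          have := Real.exp_one_gt_d9
          linarith
  have h3 : 1 / 2 ≤ ‖u (rho 0 : ℂ)‖ := by
    have h4 : (1 : ℝ) ≤ ‖u (rho 0 : ℂ)‖ +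
        ‖p.eval (rho 0 : ℂ) * Complex.exp ((HH I).eval (rho 0 : ℂ))‖ := by
      have h5 : (1 : ℂ) = p.eval (rho 0 : ℂ) * Complex.exp ((HH I).eval (rho 0 : ℂ)) -
          u (rho 0 : ℂ) := by rw [hu]; ring
      calc (1 : ℝ) = ‖(1 : ℂ)‖ := norm_one.symm
        _ = ‖p.eval (rho 0 : ℂ) * Complex.exp ((HH I).eval (rho 0 : ℂ)) -
            u (rho 0 : ℂ)‖ := by rw [← h5]
        _ ≤ _ := by
            refine (norm_sub_le _ _).trans ?_
            rw [add_comm]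
    linarith
  -- Cauchy
  set r : ℝ := 1 - del 0 / 2 with hr
  have hr0 : 0 < r := by rw [hr]; linarith
  have hr1 : r < 1 := by rw [hr]; linarith
  have hdu : Differentiable ℂ u :=
    ((Polynomial.differentiable _).mul (Polynomial.differentiable _).cexp).sub_const 1
  have hρ : ‖(rho 0 : ℂ)‖ = rho 0 := by
    rw [Complex.norm_real, Real.norm_of_nonneg (rho_pos 0).le]
  have hlt : ‖(rho 0 : ℂ)‖ < r := by
    rw [hρ, hr]; unfold rho; linarith
  have hC := sq_norm_le_circle_mean hdu hlt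
  have h4 := hcon r hr0 hr1
  change (1 - r ^ 2) * avg u r ≤ ε at h4
  change ‖u (rho 0 : ℂ)‖ ^ 2 ≤ r / (r - ‖(rho 0 : ℂ)‖) * avg u r at hC
  have h5 : del 0 / 2 ≤ 1 - r ^ 2 := by
    rw [hr]; nlinarith
  have h6 := avg_nonneg u r
  have h7 : avg u r ≤ ε / (del 0 / 2) := by
    rw [le_div_iff₀ (by positivity), mul_comm]
    calc del 0 / 2 * avg u r ≤ (1 - r ^ 2) * avg u r := by gcongr
      _ ≤ ε := h4
  have h8 : r / (r - ‖(rho 0 : ℂ)‖) ≤ 1 / (del 0 / 2) := by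
    have h9 : r - ‖(rho 0 : ℂ)‖ = del 0 / 2 := by
      rw [hρ, hr]; unfold rho; ring
    rw [h9]
    gcongr
  have h10 : ‖u (rho 0 : ℂ)‖ ^ 2 ≤ 1 / (del 0 / 2) * (ε / (del 0 / 2)) := by
    refine hC.trans ?_
    gcongr
  have h11 : 1 / (del 0 / 2) * (ε / (del 0 / 2)) = 1 / 8 := by
    rw [hε]; field_simp; norm_num
  rw [h11] at h10
  nlinarith

theorem summable_A4 : Summable fun i => 2 * (yy i : ℝ) ^ 7 * Real.exp (bq (i + 1)) /
    Real.sqrt ((NN i / 2 : ℕ) + 1) := by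
  have hle : ∀ i, 2 * (yy i : ℝ) ^ 7 * Real.exp (bq (i + 1)) / Real.sqrt ((NN i / 2 : ℕ) + 1) ≤
      (1 / 2 : ℝ) ^ i := by
    intro i
    have hN := NN_real_pos i
    have hy := yy_real i
    have hy0 := yy_real_pos i
    have h1 : Real.exp (bq (i + 1)) = Real.sqrt (NN i) / (yy i : ℝ) ^ 10 := by
      have h2 : Real.exp (bq (i + 1)) ^ 2 = NN i / (yy i : ℝ) ^ 20 := by
        rw [← exp_two_bb, ← Real.exp_nat_mul]; rfl
      have h3 : (Real.sqrt (NN i) / (yy i : ℝ) ^ 10) ^ 2 = NN i / (yy i : ℝ) ^ 20 := by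
        rw [div_pow, Real.sq_sqrt hN.le]; ring_nf
      have h4 : 0 ≤ Real.sqrt (NN i) / (yy i : ℝ) ^ 10 := by positivity
      rw [← h3] at h2
      exact (sq_eq_sq₀ (Real.exp_pos _).le h4).mp h2
    rw [h1]
    have h5 : Real.sqrt (NN i) / 2 ≤ Real.sqrt ((NN i / 2 : ℕ) + 1) := by
      have h6 : ((NN i / 2 : ℕ) : ℝ) = (NN i : ℝ) / 2 := by
        have := half_NN i
        have h3 : (2 : ℝ) * ((NN i / 2 : ℕ) : ℝ) = NN i := by exact_mod_cast this
        linarith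
      rw [h6]
      apply Real.le_sqrt_of_sq_le
      rw [div_pow, Real.sq_sqrt hN.le]
      linarith
    have hs : 0 < Real.sqrt (NN i) := Real.sqrt_pos.mpr hN
    have h7 : (yy i : ℝ) * (1 / 2 : ℝ) ^ i ≥ 4 := by
      have h8 : 2 ^ i * 4 ≤ yy i := by
        have h9 : 2 ^ i * 4 = 2 ^ (i + 2) := by rw [pow_add]; norm_num
        rw [h9]
        unfold yy
        apply Nat.pow_le_pow_right two_pos
        unfold ee
        have : i < 9 ^ i := Nat.lt_pow_self (by norm_num)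
        omega
      have h10 : (2 : ℝ) ^ i * 4 ≤ yy i := by exact_mod_cast h8
      have h11 : (0 : ℝ) < 2 ^ i := by positivity
      rw [one_div, inv_pow, ge_iff_le, ← div_eq_mul_inv, le_div_iff₀ h11]
      linarith
    calc 2 * (yy i : ℝ) ^ 7 * (Real.sqrt (NN i) / (yy i : ℝ) ^ 10) /
          Real.sqrt ((NN i / 2 : ℕ) + 1) ≤
          2 * (yy i : ℝ) ^ 7 * (Real.sqrt (NN i) / (yy i : ℝ) ^ 10) / (Real.sqrt (NN i) / 2) := by
            gcongr
      _ = 4 / (yy i : ℝ) ^ 3 := by field_simp; norm_num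
      _ ≤ 4 / (yy i : ℝ) := by
          gcongr
          exact le_self_pow₀ (by linarith) (by norm_num)
      _ ≤ (1 / 2 : ℝ) ^ i := by
          rw [div_le_iff₀ hy0]
          linarith
  apply Summable.of_nonneg_of_le _ hle (summable_geometric_of_lt_one (by norm_num) (by norm_num))
  intro i
  positivity

/-- The sequence of polynomials used for the counterexample. -/
theorem exists_data : ∃ (H : ℕ → Polynomial ℂ) (b S : ℕ → ℝ) (n : ℕ → ℕ),
    H 0 = 0 ∧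
    (∀ i z, ‖z‖ ≤ 1 → ((H i).eval z).re ≤ b i) ∧ Monotone b ∧ (∀ i, 0 ≤ b i) ∧
    (∀ i m, m < n i → (H (i + 1) - H i).coeff m = 0) ∧
    (∀ i z, ‖z‖ ≤ 1 → ‖(H (i + 1) - H i).eval z‖ ≤ S i) ∧
    (Summable fun i => S i * Real.exp (b (i + 1)) / Real.sqrt (n i + 1)) ∧
    (∀ i z, ‖z‖ ≤ 1 → ‖(H i).eval z‖ ≤ b (i + 1)) ∧
    (∃ ε : ℝ, 0 < ε ∧ ∀ p : Polynomial ℂ, ∀ᶠ i in atTop, ∃ r : ℝ, 0 < r ∧ r < 1 ∧
      ε < (1 - r ^ 2) * Real.circleAverage
        (fun z => ‖p.eval z * Complex.exp ((H i).eval z) - 1‖ ^ 2) 0 r) := by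
  refine ⟨HH, bq, fun i => 2 * (yy i : ℝ) ^ 7, fun i => NN i / 2, rfl, fun i z hz => HH_re_le i z hz,
    bq_mono, bq_nonneg, fun i m hm => coeff_diff hm, ?_, summable_A4, ?_, ?_⟩
  · intro i z hz
    refine (norm_eval_le_l1 _ hz).trans ?_
    rw [HH_succ, add_sub_cancel_left]
    have h3 := (l1_HH i).2
    have h4 : (0 : ℝ) ≤ (yy i : ℝ) ^ 7 := by positivity
    show _ ≤ 2 * (yy i : ℝ) ^ 7
    linarith
  · intro i z hz
    exact (norm_eval_le_l1 _ hz).trans (l1_HH_le_bb i)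
  · refine ⟨del 0 ^ 2 / 32, by have := del_pos 0; positivity, fun p => ?_⟩
    filter_upwards [final_bound p] with I hI
    obtain ⟨r, h0, h1, h2⟩ := hI
    refine ⟨r, h0, h1, ?_⟩
    rw [avg_eq (fun z => p.eval z * Complex.exp ((HH I).eval z) - 1) r]
    exact h2

end Pool.Agent.helper68.Cyc
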