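import Pool.Agent.helper68.Cyc.Fejer

/-!
# The polynomial blocks
-/

open Finset Polynomial

namespace Pool.Agent.helper68.Cyc

/-- the `l^1` norm of the coefficients of a polynomial -/
noncomputable def l1 (P : Polynomial ℂ) : ℝ := nrm (P : PowerSeries ℂ) 1

theorem l1_nonneg (P : Polynomial ℂ) : 0 ≤ l1 P := nrm_nonneg zero_le_one

theorem nrm_add_le {A B : PowerSeries ℂ} {r : ℝ} (hA : AC A r) (hB : AC B r) (h0 : 0 ≤ r) :
    nrm (A + B) r ≤ nrm A r + nrm B r := by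
  unfold nrm
  rw [← Summable.tsum_add hA hB]
  apply Summable.tsum_le_tsum _ (hA.add hB h0) (Summable.add hA hB)
  intro n
  rw [map_add, ← add_mul]
  gcongr
  exact norm_add_le _ _

theorem l1_add_le (P Q : Polynomial ℂ) : l1 (P + Q) ≤ l1 P + l1 Q := by
  unfold l1
  rw [Polynomial.coe_add]
  exact nrm_add_le (AC.polynomial P 1) (AC.polynomial Q 1) zero_le_one

theorem l1_neg (P : Polynomial ℂ) : l1 (-P) = l1 P := by
  unfold l1 nrm
  apply tsum_congr
  intro n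
  rw [Polynomial.coeff_coe, Polynomial.coeff_coe, coeff_neg, norm_neg]

theorem l1_sub_le (P Q : Polynomial ℂ) : l1 (P - Q) ≤ l1 P + l1 Q := by
  rw [sub_eq_add_neg, ← l1_neg Q]
  exact l1_add_le _ _

theorem l1_zero : l1 0 = 0 := by
  unfold l1 nrm
  simp

theorem l1_sum_le {ι : Type*} (s : Finset ι) (f : ι → Polynomial ℂ) :
    l1 (∑ i ∈ s, f i) ≤ ∑ i ∈ s, l1 (f i) := by
  classical
  induction s using Finset.induction_on with
  | empty => simp [l1_zero]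
  | insert a s ha ih =>
    rw [Finset.sum_insert ha, Finset.sum_insert ha]
    exact (l1_add_le _ _).trans (by linarith)

theorem l1_mul_le (P Q : Polynomial ℂ) : l1 (P * Q) ≤ l1 P * l1 Q := by
  unfold l1
  rw [Polynomial.coe_mul]
  exact ((AC.polynomial P 1).mul_aux (AC.polynomial Q 1) zero_le_one).2

theorem l1_C_mul_X_pow (a : ℂ) (n : ℕ) : l1 (C a * X ^ n) = ‖a‖ := by
  unfold l1 nrm
  rw [tsum_eq_single n]
  · rw [Polynomial.coeff_coe, coeff_C_mul, coeff_X_pow]; simp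
  · intro m hm
    rw [Polynomial.coeff_coe, coeff_C_mul, coeff_X_pow, if_neg hm]; simp

theorem l1_C (a : ℂ) : l1 (C a) = ‖a‖ := by
  have := l1_C_mul_X_pow a 0
  simpa using this

theorem l1_X_pow (n : ℕ) : l1 (X ^ n) = 1 := by
  have := l1_C_mul_X_pow 1 n
  simpa using this

theorem l1_map_conj (P : Polynomial ℂ) : l1 (P.map (starRingEnd ℂ)) = l1 P := by
  unfold l1 nrm
  apply tsum_congr
  intro n
  rw [Polynomial.coeff_coe, Polynomial.coeff_coe, coeff_map]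
  simp

theorem l1_reflect (n : ℕ) (P : Polynomial ℂ) : l1 (reflect n P) = l1 P := by
  unfold l1 nrm
  have hinv : Function.Involutive (revAt n) := fun i => by simp
  rw [← Equiv.tsum_eq hinv.toPerm]
  apply tsum_congr
  intro i
  rw [Polynomial.coeff_coe, Polynomial.coeff_coe, coeff_reflect, Function.Involutive.coe_toPerm,
    one_pow, one_pow]
  simp

theorem norm_eval_le_l1 (P : Polynomial ℂ) {z : ℂ} (hz : ‖z‖ ≤ 1) : ‖P.eval z‖ ≤ l1 P := by
  rw [← ev_polynomial]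
  exact norm_ev_le (AC.polynomial P 1) hz

/-- the `n`-th twisted monomial `z ^ n (b - Re P)` -/
noncomputable def tw (b : ℝ) (P : Polynomial ℂ) (n : ℕ) : Polynomial ℂ :=
  C (b : ℂ) * X ^ n - C (1 / 2) * (X ^ n * P) - C (1 / 2) * reflect n (P.map (starRingEnd ℂ))

theorem eval_reflect_conj {P : Polynomial ℂ} {n : ℕ} (hn : P.natDegree ≤ n) {z : ℂ}
    (hz : ‖z‖ = 1) :
    (reflect n (P.map (starRingEnd ℂ))).eval z = z ^ n * (starRingEnd ℂ) (P.eval z) := by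
  have hz0 : z ≠ 0 := by rintro rfl; simp at hz
  have hinv : (starRingEnd ℂ) z = z⁻¹ := by
    rw [Complex.inv_def, Complex.normSq_eq_norm_sq, hz]; simp
  let _inst : Invertible z⁻¹ := ⟨z, mul_inv_cancel₀ hz0, inv_mul_cancel₀ hz0⟩
  have h1 := eval₂_reflect_mul_pow (RingHom.id ℂ) z⁻¹ n (P.map (starRingEnd ℂ))
    (by rw [natDegree_map]; exact hn)
  have h2 : (⅟(z⁻¹) : ℂ) = z := rfl
  rw [h2] at h1
  have h3 : eval₂ (RingHom.id ℂ) z⁻¹ (P.map (starRingEnd ℂ)) = (starRingEnd ℂ) (P.eval z) := by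
    rw [eval₂_id, ← hinv, eval_map, eval₂_hom]
  rw [h3, eval₂_id] at h1
  rw [← h1]
  rw [mul_comm, mul_assoc, ← mul_pow, inv_mul_cancel₀ hz0, one_pow, mul_one]

theorem eval_tw {b : ℝ} {P : Polynomial ℂ} {n : ℕ} (hn : P.natDegree ≤ n) {z : ℂ}
    (hz : ‖z‖ = 1) : (tw b P n).eval z = ((b - (P.eval z).re : ℝ) : ℂ) * z ^ n := by
  unfold tw
  rw [eval_sub, eval_sub, eval_mul, eval_mul, eval_mul, eval_mul, eval_C, eval_C, eval_pow, eval_X,
    eval_reflect_conj hn hz]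
  have h1 : P.eval z + (starRingEnd ℂ) (P.eval z) = ((2 * (P.eval z).re : ℝ) : ℂ) :=
    Complex.add_conj _
  have h2 : (starRingEnd ℂ) (P.eval z) = ((2 * (P.eval z).re : ℝ) : ℂ) - P.eval z := by
    rw [← h1]; ring
  rw [h2]
  push_cast
  ring

theorem l1_tw_le {b : ℝ} (hb : 0 ≤ b) (P : Polynomial ℂ) (n : ℕ) : l1 (tw b P n) ≤ b + l1 P := by
  unfold tw
  have h1 : l1 (C (b : ℂ) * X ^ n) = b := by
    rw [l1_C_mul_X_pow, Complex.norm_real, Real.norm_of_nonneg hb]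
  have h2 : l1 (C (1 / 2 : ℂ) * (X ^ n * P)) ≤ 1 / 2 * l1 P := by
    refine (l1_mul_le _ _).trans ?_
    rw [l1_C]
    have h3 : l1 (X ^ n * P) ≤ l1 P := by
      refine (l1_mul_le _ _).trans ?_
      rw [l1_X_pow, one_mul]
    have h4 : ‖(1 / 2 : ℂ)‖ = 1 / 2 := by simp
    rw [h4]
    gcongr
  have h3 : l1 (C (1 / 2 : ℂ) * reflect n (P.map (starRingEnd ℂ))) ≤ 1 / 2 * l1 P := by
    refine (l1_mul_le _ _).trans ?_
    rw [l1_C, l1_reflect, l1_map_conj]
    have h4 : ‖(1 / 2 : ℂ)‖ = 1 / 2 := by simp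
    rw [h4]
  have h4 := l1_sub_le (C (b : ℂ) * X ^ n - C (1 / 2) * (X ^ n * P))
    (C (1 / 2) * reflect n (P.map (starRingEnd ℂ)))
  have h5 := l1_sub_le (C (b : ℂ) * X ^ n) (C (1 / 2) * (X ^ n * P))
  linarith

theorem coeff_tw_low {b : ℝ} {P : Polynomial ℂ} {n D i : ℕ} (hD : P.natDegree ≤ D)
    (hi : i + D < n) : (tw b P n).coeff i = 0 := by
  unfold tw
  have h1 : ((C (b : ℂ) * X ^ n : Polynomial ℂ)).coeff i = 0 := by
    rw [coeff_C_mul, coeff_X_pow, if_neg (by omega), mul_zero]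
  have h2 : ((C (1 / 2 : ℂ) * (X ^ n * P))).coeff i = 0 := by
    rw [coeff_C_mul, coeff_X_pow_mul', if_neg (by omega), mul_zero]
  have h3 : ((C (1 / 2 : ℂ) * reflect n (P.map (starRingEnd ℂ)))).coeff i = 0 := by
    rw [coeff_C_mul, coeff_reflect, revAt_le (by omega), coeff_eq_zero_of_natDegree_lt, mul_zero]
    rw [natDegree_map]; omega
  rw [coeff_sub, coeff_sub, h1, h2, h3]; simp

theorem coeff_tw_high {b : ℝ} {P : Polynomial ℂ} {n D i : ℕ} (hD : P.natDegree ≤ D)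
    (hi : n + D < i) : (tw b P n).coeff i = 0 := by
  unfold tw
  have h1 : ((C (b : ℂ) * X ^ n : Polynomial ℂ)).coeff i = 0 := by
    rw [coeff_C_mul, coeff_X_pow, if_neg (by omega), mul_zero]
  have h2 : ((C (1 / 2 : ℂ) * (X ^ n * P))).coeff i = 0 := by
    rw [coeff_C_mul, coeff_X_pow_mul', if_pos (by omega), coeff_eq_zero_of_natDegree_lt, mul_zero]
    omega
  have h3 : ((C (1 / 2 : ℂ) * reflect n (P.map (starRingEnd ℂ)))).coeff i = 0 := by
    rw [coeff_C_mul, coeff_reflect, revAt_eq_self_of_lt (by omega), coeff_eq_zero_of_natDegree_lt,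
      mul_zero]
    rw [natDegree_map]; omega
  rw [coeff_sub, coeff_sub, h1, h2, h3]; simp

/-- the block: on the unit circle it is `(b - Re P(z)) q_M(z ^ N)` -/
noncomputable def blk (b : ℝ) (N M : ℕ) (P : Polynomial ℂ) : Polynomial ℂ :=
  ∑ m ∈ range M, C (-2 * ((1 - ((m : ℝ) + 1) / ((M : ℝ) + 1) : ℝ) : ℂ)) * tw b P ((m + 1) * N)

theorem eval_blk {b : ℝ} {N M : ℕ} {P : Polynomial ℂ} (hN : P.natDegree ≤ N) {z : ℂ}
    (hz : ‖z‖ = 1) :
    (blk b N M P).eval z = ((b - (P.eval z).re : ℝ) : ℂ) * qf M (z ^ N) := by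
  unfold blk qf
  rw [eval_finsetSum, Finset.mul_sum, Finset.mul_sum]
  apply Finset.sum_congr rfl
  intro m _
  have hn : P.natDegree ≤ (m + 1) * N := hN.trans (Nat.le_mul_of_pos_left N (Nat.succ_pos m))
  rw [eval_mul, eval_C, eval_tw hn hz, ← pow_mul, mul_comm N (m + 1)]
  ring

theorem l1_blk_le {b : ℝ} (hb : 0 ≤ b) (N M : ℕ) (P : Polynomial ℂ) :
    l1 (blk b N M P) ≤ 2 * M * (b + l1 P) := by
  unfold blk
  refine (l1_sum_le _ _).trans ?_
  have h1 : ∀ m ∈ range M, l1 (C (-2 * ((1 - ((m : ℝ) + 1) / ((M : ℝ) + 1) : ℝ) : ℂ)) *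
      tw b P ((m + 1) * N)) ≤ 2 * (b + l1 P) := by
    intro m hm
    obtain ⟨ha, ha'⟩ := coef_mem M m hm
    refine (l1_mul_le _ _).trans ?_
    rw [l1_C, norm_mul, Complex.norm_real, Real.norm_of_nonneg ha]
    have h2 : ‖(-2 : ℂ)‖ = 2 := by simp
    rw [h2]
    have h3 := l1_tw_le hb P ((m + 1) * N)
    have h4 := l1_nonneg (tw b P ((m + 1) * N))
    calc 2 * (1 - ((m : ℝ) + 1) / ((M : ℝ) + 1)) * l1 (tw b P ((m + 1) * N))
        ≤ 2 * 1 * (b + l1 P) := by gcongr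
      _ = _ := by ring
  refine (Finset.sum_le_sum h1).trans ?_
  rw [Finset.sum_const, card_range, nsmul_eq_mul]
  linarith

theorem coeff_blk_low {b : ℝ} {N M : ℕ} {P : Polynomial ℂ} {D i : ℕ} (hD : P.natDegree ≤ D)
    (hi : i + D < N) : (blk b N M P).coeff i = 0 := by
  unfold blk
  rw [finsetSum_coeff]
  apply Finset.sum_eq_zero
  intro m _
  have h1 : N ≤ (m + 1) * N := Nat.le_mul_of_pos_left N (Nat.succ_pos m)
  rw [coeff_C_mul, coeff_tw_low hD (by omega), mul_zero]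

theorem coeff_blk_high {b : ℝ} {N M : ℕ} {P : Polynomial ℂ} {D i : ℕ} (hD : P.natDegree ≤ D)
    (hi : M * N + D < i) : (blk b N M P).coeff i = 0 := by
  unfold blk
  rw [finsetSum_coeff]
  apply Finset.sum_eq_zero
  intro m hm
  have h1 : (m + 1) * N ≤ M * N := Nat.mul_le_mul_right N (Nat.succ_le_of_lt (mem_range.mp hm))
  rw [coeff_C_mul, coeff_tw_high hD (by omega), mul_zero]

theorem natDegree_blk_le {b : ℝ} {N M : ℕ} {P : Polynomial ℂ} {D : ℕ} (hD : P.natDegree ≤ D) :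
    (blk b N M P).natDegree ≤ M * N + D := by
  rw [natDegree_le_iff_coeff_eq_zero]
  intro i hi
  exact coeff_blk_high hD hi

end Pool.Agent.helper68.Cyc
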