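import Pool.Agent.helper68.Cyc.Parseval

/-!
# Mean values on circles
-/

open Finset

namespace Pool.Agent.helper68.Cyc

theorem norm_mul_cis {ρ : ℝ} (hρ : 0 ≤ ρ) (θ : ℝ) : ‖(ρ : ℂ) * cis θ‖ = ρ := by
  rw [norm_mul, norm_cis, mul_one, Complex.norm_real, Real.norm_of_nonneg hρ]

theorem ev_mul_cis (A : PowerSeries ℂ) (ρ θ : ℝ) :
    ev A (ρ * cis θ) = ∑' n, (PowerSeries.coeff n A * (ρ : ℂ) ^ n) * cis θ ^ n := by
  unfold ev
  apply tsum_congr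
  intro n
  rw [mul_pow]; ring

theorem summable_coeff_mul {A : PowerSeries ℂ} {ρ : ℝ} (hA : AC A ρ) (hρ : 0 ≤ ρ) :
    Summable fun n => ‖PowerSeries.coeff n A * (ρ : ℂ) ^ n‖ := by
  have : ‖(ρ : ℂ)‖ ≤ ρ := by rw [Complex.norm_real, Real.norm_of_nonneg hρ]
  exact hA.summable_norm this

theorem continuous_ev_circle {A : PowerSeries ℂ} {ρ : ℝ} (hA : AC A ρ) (hρ : 0 ≤ ρ) :
    Continuous fun θ : ℝ => ev A (ρ * cis θ) := by
  simp_rw [ev_mul_cis]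
  exact continuous_tsum_cis (summable_coeff_mul hA hρ)

theorem circle_mean {A : PowerSeries ℂ} {ρ : ℝ} (hA : AC A ρ) (hρ : 0 ≤ ρ) :
    Summable (fun n => ‖PowerSeries.coeff n A‖ ^ 2 * (ρ ^ 2) ^ n) ∧
    ∫ θ in (0 : ℝ)..(2 * Real.pi), ‖ev A (ρ * cis θ)‖ ^ 2 =
      2 * Real.pi * ∑' n, ‖PowerSeries.coeff n A‖ ^ 2 * (ρ ^ 2) ^ n := by
  have h := parseval (summable_coeff_mul hA hρ)
  have h1 : ∀ n, ‖PowerSeries.coeff n A * (ρ : ℂ) ^ n‖ ^ 2 =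
      ‖PowerSeries.coeff n A‖ ^ 2 * (ρ ^ 2) ^ n := by
    intro n
    rw [norm_mul, norm_pow, Complex.norm_real, Real.norm_of_nonneg hρ, mul_pow, ← pow_mul,
      ← pow_mul, mul_comm n 2]
  simp_rw [h1, ← ev_mul_cis] at h
  exact h

/-- bounded functions have square-summable coefficients -/
theorem sum_sq_le_of_bounded {A : PowerSeries ℂ} {C : ℝ} (hC : 0 ≤ C)
    (hA : ∀ r, 0 ≤ r → r < 1 → AC A r) (hb : ∀ z, ‖z‖ < 1 → ‖ev A z‖ ≤ C) (N : ℕ) :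
    ∑ n ∈ range N, ‖PowerSeries.coeff n A‖ ^ 2 ≤ C ^ 2 := by
  have key : ∀ r : ℝ, 0 ≤ r → r < 1 →
      ∑ n ∈ range N, ‖PowerSeries.coeff n A‖ ^ 2 * (r ^ 2) ^ n ≤ C ^ 2 := by
    intro r h0 h1
    obtain ⟨hs, hm⟩ := circle_mean (hA r h0 h1) h0
    have h2 : ∫ θ in (0 : ℝ)..(2 * Real.pi), ‖ev A (r * cis θ)‖ ^ 2 ≤
        ∫ _θ in (0 : ℝ)..(2 * Real.pi), C ^ 2 := by
      apply intervalIntegral.integral_mono_on (by positivity)
      · exact ((continuous_ev_circle (hA r h0 h1) h0).norm.pow 2).intervalIntegrable _ _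
      · exact intervalIntegrable_const
      · intro θ _
        gcongr
        apply hb
        rw [norm_mul_cis h0]; exact h1
    rw [hm, intervalIntegral.integral_const, smul_eq_mul, sub_zero] at h2
    have h3 : ∑' n, ‖PowerSeries.coeff n A‖ ^ 2 * (r ^ 2) ^ n ≤ C ^ 2 := by
      have := Real.two_pi_pos
      exact le_of_mul_le_mul_left h2 this
    exact (hs.sum_le_tsum _ fun _ _ => by positivity).trans h3
  have hlim : Filter.Tendsto (fun r : ℝ => ∑ n ∈ range N, ‖PowerSeries.coeff n A‖ ^ 2 *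
      (r ^ 2) ^ n) (nhdsWithin 1 (Set.Iio 1))
      (nhds (∑ n ∈ range N, ‖PowerSeries.coeff n A‖ ^ 2 * ((1 : ℝ) ^ 2) ^ n)) := by
    apply Filter.Tendsto.mono_left _ nhdsWithin_le_nhds
    apply Continuous.tendsto
    fun_prop
  simp only [one_pow, mul_one] at hlim
  apply le_of_tendsto hlim
  have h0 : Set.Ioo (0 : ℝ) 1 ∈ nhdsWithin (1 : ℝ) (Set.Iio 1) := Ioo_mem_nhdsLT one_pos
  filter_upwards [h0] with r hr
  exact key r hr.1.le hr.2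

theorem succ_mul_pow_le {x : ℝ} (h0 : 0 ≤ x) (h1 : x < 1) (n : ℕ) :
    ((n : ℝ) + 1) * x ^ n ≤ 1 / (1 - x) := by
  have h2 : ((n : ℝ) + 1) * x ^ n ≤ ∑ k ∈ range (n + 1), x ^ k := by
    calc ((n : ℝ) + 1) * x ^ n = ∑ _k ∈ range (n + 1), x ^ n := by simp
      _ ≤ ∑ k ∈ range (n + 1), x ^ k := by
          apply Finset.sum_le_sum
          intro k hk
          exact pow_le_pow_of_le_one h0 h1.le (Nat.lt_succ_iff.mp (mem_range.mp hk))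
  refine h2.trans ?_
  rw [one_div, ← tsum_geometric_of_lt_one h0 h1]
  exact (summable_geometric_of_lt_one h0 h1).sum_le_tsum _ fun _ _ => by positivity

/-- functions in the Bergman space on circles -/
theorem circle_mean_le_of_bergman {A : PowerSeries ℂ} {ρ : ℝ} (hA : AC A ρ) (hρ : 0 ≤ ρ)
    (hρ1 : ρ < 1) {b : ℝ} (hs : Summable fun n : ℕ => ‖PowerSeries.coeff n A‖ ^ 2 / ((n : ℝ) + 1))
    (hb : ∑' n : ℕ, ‖PowerSeries.coeff n A‖ ^ 2 / ((n : ℝ) + 1) ≤ b) :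
    ∫ θ in (0 : ℝ)..(2 * Real.pi), ‖ev A (ρ * cis θ)‖ ^ 2 ≤ 2 * Real.pi * (b / (1 - ρ ^ 2)) := by
  obtain ⟨hs', hm⟩ := circle_mean hA hρ
  rw [hm]
  have h1 : ρ ^ 2 < 1 := by nlinarith
  have h2 : 0 < 1 - ρ ^ 2 := by linarith
  have h3 : ∑' n, ‖PowerSeries.coeff n A‖ ^ 2 * (ρ ^ 2) ^ n ≤
      ∑' n : ℕ, (‖PowerSeries.coeff n A‖ ^ 2 / ((n : ℝ) + 1)) * (1 / (1 - ρ ^ 2)) := by
    apply Summable.tsum_le_tsum _ hs' (hs.mul_right _)
    intro n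
    have h4 := succ_mul_pow_le (by positivity : 0 ≤ ρ ^ 2) h1 n
    have h5 : ‖PowerSeries.coeff n A‖ ^ 2 * (ρ ^ 2) ^ n =
        (‖PowerSeries.coeff n A‖ ^ 2 / ((n : ℝ) + 1)) * (((n : ℝ) + 1) * (ρ ^ 2) ^ n) := by
      field_simp
    rw [h5]
    gcongr
  rw [tsum_mul_right] at h3
  have hpi := Real.two_pi_pos
  have h6 : (∑' n : ℕ, ‖PowerSeries.coeff n A‖ ^ 2 / ((n : ℝ) + 1)) * (1 / (1 - ρ ^ 2)) ≤
      b / (1 - ρ ^ 2) := by
    rw [mul_one_div]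
    gcongr
  gcongr
  exact h3.trans h6

/-- Cauchy estimate by the mean square on a circle -/
theorem sq_norm_le_circle_mean {g : ℂ → ℂ} (hg : Differentiable ℂ g) {ρ : ℝ} {z : ℂ}
    (hz : ‖z‖ < ρ) :
    ‖g z‖ ^ 2 ≤ (ρ / (ρ - ‖z‖)) * ((2 * Real.pi)⁻¹ *
      ∫ θ in (0 : ℝ)..(2 * Real.pi), ‖g (ρ * cis θ)‖ ^ 2) := by
  have hρ : 0 < ρ := (norm_nonneg z).trans_lt hz
  have hzb : z ∈ Metric.ball (0 : ℂ) ρ := by simpa using hz
  have hd : DiffContOnCl ℂ (fun w => g w ^ 2) (Metric.ball 0 ρ) :=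
    (hg.pow 2).diffContOnCl
  have hC := hd.two_pi_i_inv_smul_circleIntegral_sub_inv_smul hzb
  have h1 : ‖g z‖ ^ 2 = ‖(2 * Real.pi * Complex.I : ℂ)⁻¹ •
      ∮ w in C(0, ρ), (w - z)⁻¹ • g w ^ 2‖ := by
    rw [hC, norm_pow]
  rw [h1, norm_smul, circleIntegral]
  have h2 : ‖(2 * Real.pi * Complex.I : ℂ)⁻¹‖ = (2 * Real.pi)⁻¹ := by
    rw [norm_inv, norm_mul, norm_mul, Complex.norm_I, Complex.norm_real,
      Real.norm_of_nonneg Real.pi_pos.le]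
    simp
  rw [h2]
  have hcont : Continuous fun θ : ℝ => g (ρ * cis θ) :=
    hg.continuous.comp (continuous_const.mul continuous_cis)
  have h3 : ‖∫ θ in (0 : ℝ)..(2 * Real.pi), deriv (circleMap 0 ρ) θ •
      ((circleMap 0 ρ θ - z)⁻¹ • g (circleMap 0 ρ θ) ^ 2)‖ ≤
      ∫ θ in (0 : ℝ)..(2 * Real.pi), (ρ / (ρ - ‖z‖)) * ‖g (ρ * cis θ)‖ ^ 2 := by
    apply intervalIntegral.norm_integral_le_of_norm_le (by positivity)
    · refine Filter.Eventually.of_forall fun θ _ => ?_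
      have hcm : circleMap 0 ρ θ = ρ * cis θ := by simp [circleMap, cis]
      rw [norm_smul, norm_smul, deriv_circleMap, hcm, norm_mul, Complex.norm_I, mul_one,
        norm_mul_cis hρ.le, norm_pow, norm_inv]
      have h4 : ρ - ‖z‖ ≤ ‖(ρ : ℂ) * cis θ - z‖ := by
        have := norm_sub_norm_le ((ρ : ℂ) * cis θ) z
        rwa [norm_mul_cis hρ.le] at this
      have h5 : 0 < ρ - ‖z‖ := by linarith
      rw [← mul_assoc, div_eq_mul_inv]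
      gcongr
    · exact (continuous_const.mul (hcont.norm.pow 2)).intervalIntegrable _ _
  rw [intervalIntegral.integral_const_mul] at h3
  calc _ ≤ (2 * Real.pi)⁻¹ * ((ρ / (ρ - ‖z‖)) *
        ∫ θ in (0 : ℝ)..(2 * Real.pi), ‖g (ρ * cis θ)‖ ^ 2) := by
        gcongr
    _ = _ := by ring

end Pool.Agent.helper68.Cyc
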