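import Pool.Agent.helper68.Cyc.PS

/-!
# Exponential of a power series
-/

open Finset

namespace Pool.Agent.helper68.Cyc

/-- the exponential of a power series without constant term -/
noncomputable def expPS {R : Type*} [CommRing R] [Algebra ℂ R] (A : PowerSeries R) :
    PowerSeries R :=
  PowerSeries.mk fun n => ∑ k ∈ range (n + 1), ((k.factorial : ℂ)⁻¹) • PowerSeries.coeff n (A ^ k)

theorem coeff_expPS {R : Type*} [CommRing R] [Algebra ℂ R] (A : PowerSeries R) (n : ℕ) :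
    PowerSeries.coeff n (expPS A) =
      ∑ k ∈ range (n + 1), ((k.factorial : ℂ)⁻¹) • PowerSeries.coeff n (A ^ k) := by
  rw [expPS, PowerSeries.coeff_mk]

theorem map_expPS {R R' : Type*} [CommRing R] [Algebra ℂ R] [CommRing R'] [Algebra ℂ R']
    (f : R →ₐ[ℂ] R') (A : PowerSeries R) :
    (expPS A).map (f : R →+* R') = expPS (A.map (f : R →+* R')) := by
  ext n
  rw [PowerSeries.coeff_map, coeff_expPS, coeff_expPS, map_sum]
  apply Finset.sum_congr rfl
  intro k _
  rw [← map_pow, PowerSeries.coeff_map]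
  exact map_smul f _ _

theorem coeff_pow_eq_zero {R : Type*} [CommRing R] (A : PowerSeries R)
    (h0 : PowerSeries.constantCoeff A = 0) {k n : ℕ} (h : n < k) :
    PowerSeries.coeff n (A ^ k) = 0 := by
  have h1 : (PowerSeries.X : PowerSeries R) ∣ A := PowerSeries.X_dvd_iff.mpr h0
  have h2 := pow_dvd_pow_of_dvd h1 k
  exact (PowerSeries.X_pow_dvd_iff.mp h2) n h

theorem hasSum_exp_aux {A : PowerSeries ℂ} {r : ℝ} {z : ℂ} (hA : AC A r) (hz : ‖z‖ ≤ r) :
    Summable fun x : ℕ × ℕ =>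
      ‖((x.1.factorial : ℂ)⁻¹) * (PowerSeries.coeff x.2 (A ^ x.1) * z ^ x.2)‖ := by
  have h0 : 0 ≤ r := (norm_nonneg z).trans hz
  rw [summable_prod_of_nonneg (fun _ => norm_nonneg _)]
  have hk : ∀ k : ℕ, Summable fun n => ‖((k.factorial : ℂ)⁻¹) *
      (PowerSeries.coeff n (A ^ k) * z ^ n)‖ := by
    intro k
    simp_rw [norm_mul ((k.factorial : ℂ)⁻¹)]
    exact ((hA.pow h0 k).1.summable_norm hz).mul_left _
  refine ⟨hk, ?_⟩
  have hexp : Summable fun k : ℕ => (nrm A r) ^ k / (k.factorial : ℝ) :=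
    Real.summable_pow_div_factorial _
  refine Summable.of_nonneg_of_le (fun k => tsum_nonneg fun n => norm_nonneg _) (fun k => ?_) hexp
  simp_rw [norm_mul ((k.factorial : ℂ)⁻¹)]
  rw [tsum_mul_left, div_eq_inv_mul, norm_inv, Complex.norm_natCast]
  gcongr
  refine le_trans ?_ (hA.pow h0 k).2
  refine Summable.tsum_le_tsum (fun n => ?_) ((hA.pow h0 k).1.summable_norm hz) (hA.pow h0 k).1
  rw [norm_mul, norm_pow]
  gcongr

theorem coeff_expPS_mul {A : PowerSeries ℂ} (h0 : PowerSeries.constantCoeff A = 0) (z : ℂ) (n : ℕ) :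
    PowerSeries.coeff n (expPS A) * z ^ n =
      ∑' k : ℕ, ((k.factorial : ℂ)⁻¹) * (PowerSeries.coeff n (A ^ k) * z ^ n) := by
  rw [coeff_expPS, tsum_eq_sum (s := range (n + 1)), Finset.sum_mul]
  · apply Finset.sum_congr rfl
    intro k _
    rw [smul_eq_mul, mul_assoc]
  · intro k hk
    rw [mem_range, not_lt] at hk
    rw [coeff_pow_eq_zero A h0 (by omega), zero_mul, mul_zero]

theorem ev_expPS {A : PowerSeries ℂ} {r : ℝ} {z : ℂ} (h0 : PowerSeries.constantCoeff A = 0)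
    (hA : AC A r) (hz : ‖z‖ ≤ r) : ev (expPS A) z = Complex.exp (ev A z) := by
  let F : ℕ → ℕ → ℂ := fun k n =>
    ((k.factorial : ℂ)⁻¹) * (PowerSeries.coeff n (A ^ k) * z ^ n)
  have hs : Summable (Function.uncurry F) := (hasSum_exp_aux hA hz).of_norm
  have h1 : ev (expPS A) z = ∑' n, ∑' k, F k n := by
    unfold ev
    apply tsum_congr
    intro n
    exact coeff_expPS_mul h0 z n
  have h2 : ∑' n, ∑' k, F k n = ∑' k, ∑' n, F k n := Summable.tsum_comm hs
  have h3 : ∀ k, ∑' n, F k n = (ev A z) ^ k / (k.factorial : ℂ) := by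
    intro k
    have h4 : ∑' n, F k n = ((k.factorial : ℂ)⁻¹) * ev (A ^ k) z := tsum_mul_left
    rw [h4, ev_pow hA hz k, div_eq_inv_mul]
  rw [h1, h2, Complex.exp_eq_exp_ℂ, NormedSpace.exp_eq_tsum_div]
  exact tsum_congr h3

theorem AC.expPS {A : PowerSeries ℂ} {r : ℝ} (h0 : PowerSeries.constantCoeff A = 0)
    (hA : AC A r) (hr : 0 ≤ r) : AC (expPS A) r := by
  have hz : ‖(r : ℂ)‖ ≤ r := by rw [Complex.norm_real, Real.norm_of_nonneg hr]
  have hs := hasSum_exp_aux hA hz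
  have h1 := hs.prod_symm
  have h2 := (summable_prod_of_nonneg (f := fun x : ℕ × ℕ =>
    ‖((x.2.factorial : ℂ)⁻¹) * (PowerSeries.coeff x.1 (A ^ x.2) * (r : ℂ) ^ x.1)‖)
    (fun _ => norm_nonneg _)).mp h1
  refine Summable.of_nonneg_of_le (fun _ => by positivity) (fun n => ?_) h2.2
  have h3 : ‖PowerSeries.coeff n (Cyc.expPS A)‖ * r ^ n =
      ‖PowerSeries.coeff n (Cyc.expPS A) * (r : ℂ) ^ n‖ := by
    rw [norm_mul, norm_pow, Complex.norm_real, Real.norm_of_nonneg hr]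
  rw [h3, coeff_expPS_mul h0]
  exact norm_tsum_le_tsum_norm (h2.1 n)

end Pool.Agent.helper68.Cyc
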