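import Pool.Agent.helper68.Cyc.Circle

/-!
# Fejér kernel
-/

open Finset

namespace Pool.Agent.helper68.Cyc

/-- analytic completion of `1 - (Fejér kernel)` -/
noncomputable def qf (M : ℕ) (w : ℂ) : ℂ :=
  -2 * ∑ m ∈ range M, ((1 - ((m : ℝ) + 1) / ((M : ℝ) + 1) : ℝ) : ℂ) * w ^ (m + 1)

/-- Fejér kernel -/
noncomputable def kf (M : ℕ) (w : ℂ) : ℝ := ‖∑ m ∈ range (M + 1), w ^ m‖ ^ 2 / ((M : ℝ) + 1)

theorem kf_nonneg (M : ℕ) (w : ℂ) : 0 ≤ kf M w := by unfold kf; positivity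

theorem kf_one (M : ℕ) : kf M 1 = M + 1 := by
  unfold kf
  simp only [one_pow, sum_const, card_range, nsmul_eq_mul, mul_one]
  have : ‖((M + 1 : ℕ) : ℂ)‖ = (M : ℝ) + 1 := by
    rw [Complex.norm_natCast]; push_cast; ring
  rw [this]
  field_simp

theorem normSq_geom {w : ℂ} (hw : ‖w‖ = 1) (M : ℕ) :
    ‖∑ m ∈ range (M + 1), w ^ m‖ ^ 2 =
      ((M : ℝ) + 1) + 2 * (∑ m ∈ range M, (((M : ℝ) - (m : ℝ) : ℝ) : ℂ) * w ^ (m + 1)).re := by
  induction M with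
  | zero => simp
  | succ M ih =>
    rw [Finset.sum_range_succ, Complex.sq_norm, Complex.normSq_add, ← Complex.sq_norm,
      ← Complex.sq_norm, ih]
    have hconj : w * (starRingEnd ℂ) w = 1 := by
      rw [Complex.mul_conj', hw]; simp
    have h1 : (∑ m ∈ range (M + 1), w ^ m) * (starRingEnd ℂ) (w ^ (M + 1)) =
        (starRingEnd ℂ) (∑ m ∈ range (M + 1), w ^ (m + 1)) := by
      rw [map_sum, Finset.sum_mul, ← Finset.sum_range_reflect]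
      apply Finset.sum_congr rfl
      intro m hm
      have hm' : m ≤ M := Nat.lt_succ_iff.mp (mem_range.mp hm)
      have h2 : M + 1 = (M - m) + (m + 1) := by omega
      have h3 : M + 1 - 1 - m = M - m := by omega
      rw [h3]
      conv_lhs => rw [h2, pow_add, map_mul, map_pow]
      rw [← mul_assoc, ← mul_pow, hconj, one_pow, one_mul]
    rw [h1, Complex.conj_re, norm_pow, hw, one_pow, one_pow]
    have h4 : (∑ m ∈ range (M + 1), (((M + 1 : ℕ) : ℝ) - (m : ℝ) : ℝ) * w ^ (m + 1) : ℂ) =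
        (∑ m ∈ range M, (((M : ℝ) - (m : ℝ) : ℝ) : ℂ) * w ^ (m + 1)) +
          ∑ m ∈ range (M + 1), w ^ (m + 1) := by
      have h5 : (∑ m ∈ range M, (((M : ℝ) - (m : ℝ) : ℝ) : ℂ) * w ^ (m + 1)) =
          ∑ m ∈ range (M + 1), (((M : ℝ) - (m : ℝ) : ℝ) : ℂ) * w ^ (m + 1) := by
        rw [Finset.sum_range_succ]; simp
      rw [h5, ← Finset.sum_add_distrib]
      apply Finset.sum_congr rfl
      intro m _
      push_cast
      ring
    rw [h4, Complex.add_re]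
    push_cast
    ring

theorem qf_re {w : ℂ} (hw : ‖w‖ = 1) (M : ℕ) : (qf M w).re = 1 - kf M w := by
  unfold qf kf
  rw [normSq_geom hw M]
  have hM : (0 : ℝ) < (M : ℝ) + 1 := by positivity
  have h1 : ∑ m ∈ range M, ((1 - ((m : ℝ) + 1) / ((M : ℝ) + 1) : ℝ) : ℂ) * w ^ (m + 1) =
      (((1 / ((M : ℝ) + 1)) : ℝ) : ℂ) *
        ∑ m ∈ range M, (((M : ℝ) - (m : ℝ) : ℝ) : ℂ) * w ^ (m + 1) := by
    rw [Finset.mul_sum]
    apply Finset.sum_congr rfl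
    intro m _
    rw [← mul_assoc, ← Complex.ofReal_mul]
    congr 2
    field_simp
    ring
  rw [h1]
  have h2 : (-2 * ((((1 / ((M : ℝ) + 1)) : ℝ) : ℂ) *
        ∑ m ∈ range M, (((M : ℝ) - (m : ℝ) : ℝ) : ℂ) * w ^ (m + 1))) =
      (((-2 * (1 / ((M : ℝ) + 1))) : ℝ) : ℂ) *
        ∑ m ∈ range M, (((M : ℝ) - (m : ℝ) : ℝ) : ℂ) * w ^ (m + 1) := by
    push_cast; ring
  rw [h2, Complex.re_ofReal_mul]
  field_simp
  ring

theorem kf_le {w : ℂ} (hw : ‖w‖ = 1) (hw1 : w ≠ 1) (M : ℕ) :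
    kf M w ≤ 4 / (((M : ℝ) + 1) * ‖1 - w‖ ^ 2) := by
  unfold kf
  have h1 : (∑ m ∈ range (M + 1), w ^ m) = (w ^ (M + 1) - 1) / (w - 1) := geom_sum_eq hw1 _
  rw [h1, norm_div, div_pow]
  have h2 : ‖w ^ (M + 1) - 1‖ ≤ 2 := by
    refine (norm_sub_le _ _).trans ?_
    rw [norm_pow, hw, one_pow, norm_one]; norm_num
  have h3 : 0 < ‖w - 1‖ := norm_pos_iff.mpr (sub_ne_zero.mpr hw1)
  rw [norm_sub_rev 1 w, div_div, mul_comm (‖w - 1‖ ^ 2)]
  have h4 : ‖w ^ (M + 1) - 1‖ ^ 2 ≤ 4 := by nlinarith [norm_nonneg (w ^ (M + 1) - 1)]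
  gcongr

/-- maximum principle for real parts -/
theorem re_le_of_circle {g : ℂ → ℂ} (hg : Differentiable ℂ g) {b : ℝ}
    (h : ∀ w : ℂ, ‖w‖ = 1 → (g w).re ≤ b) {w : ℂ} (hw : ‖w‖ ≤ 1) : (g w).re ≤ b := by
  have hd : DiffContOnCl ℂ (fun w => Complex.exp (g w)) (Metric.ball 0 1) :=
    (hg.cexp).diffContOnCl
  have h1 : ∀ z ∈ frontier (Metric.ball (0 : ℂ) 1), ‖Complex.exp (g z)‖ ≤ Real.exp b := by
    intro z hz
    rw [frontier_ball (0 : ℂ) one_ne_zero, mem_sphere_zero_iff_norm] at hz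
    rw [Complex.norm_exp]
    exact Real.exp_le_exp.mpr (h z hz)
  have hwc : w ∈ closure (Metric.ball (0 : ℂ) 1) := by
    rw [closure_ball (0 : ℂ) one_ne_zero]
    simpa using hw
  have h2 := Complex.norm_le_of_forall_mem_frontier_norm_le Metric.isBounded_ball hd h1 hwc
  rw [Complex.norm_exp] at h2
  exact Real.exp_le_exp.mp h2

theorem differentiable_qf (M : ℕ) : Differentiable ℂ (qf M) := by
  unfold qf
  fun_prop

theorem one_sub_qf_re_nonneg (L : ℕ) {w : ℂ} (hw : ‖w‖ ≤ 1) : 0 ≤ (1 - qf L w).re := by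
  have h := re_le_of_circle (g := fun w => qf L w) (differentiable_qf L) (b := 1)
    (fun w hw => by rw [qf_re hw]; linarith [kf_nonneg L w]) hw
  rw [Complex.sub_re, Complex.one_re]
  linarith

theorem coef_mem (M m : ℕ) (hm : m ∈ range M) :
    0 ≤ 1 - ((m : ℝ) + 1) / ((M : ℝ) + 1) ∧ 1 - ((m : ℝ) + 1) / ((M : ℝ) + 1) ≤ 1 := by
  rw [mem_range] at hm
  have h1 : ((m : ℝ) + 1) ≤ (M : ℝ) + 1 := by
    have : (m : ℝ) ≤ M := by exact_mod_cast hm.le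
    linarith
  have hM : (0 : ℝ) < (M : ℝ) + 1 := by positivity
  constructor
  · rw [sub_nonneg, div_le_one hM]; exact h1
  · have : 0 ≤ ((m : ℝ) + 1) / ((M : ℝ) + 1) := by positivity
    linarith

theorem norm_qf_le (L : ℕ) {w : ℂ} (hw : ‖w‖ ≤ 1) : ‖qf L w‖ ≤ 2 * L * ‖w‖ := by
  unfold qf
  rw [norm_mul]
  have h1 : ‖∑ m ∈ range L, ((1 - ((m : ℝ) + 1) / ((L : ℝ) + 1) : ℝ) : ℂ) * w ^ (m + 1)‖ ≤
      ∑ _m ∈ range L, ‖w‖ := by
    refine (norm_sum_le _ _).trans (Finset.sum_le_sum fun m hm => ?_)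
    obtain ⟨ha, hb⟩ := coef_mem L m hm
    rw [norm_mul, Complex.norm_real, Real.norm_of_nonneg ha, norm_pow, pow_succ]
    have h2 : ‖w‖ ^ m ≤ 1 := pow_le_one₀ (norm_nonneg w) hw
    calc (1 - ((m : ℝ) + 1) / ((L : ℝ) + 1)) * (‖w‖ ^ m * ‖w‖) ≤ 1 * (1 * ‖w‖) := by gcongr
      _ = ‖w‖ := by ring
  rw [Finset.sum_const, card_range, nsmul_eq_mul] at h1
  have h2 : ‖(-2 : ℂ)‖ = 2 := by simp
  rw [h2]
  linarith

theorem norm_pow_sub_one_le {w : ℂ} (hw : ‖w‖ ≤ 1) (m : ℕ) : ‖w ^ m - 1‖ ≤ m * ‖w - 1‖ := by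
  induction m with
  | zero => simp
  | succ m ih =>
    have h1 : w ^ (m + 1) - 1 = (w ^ m - 1) * w + (w - 1) := by ring
    rw [h1]
    refine (norm_add_le _ _).trans ?_
    rw [norm_mul]
    push_cast
    have h2 : ‖w ^ m - 1‖ * ‖w‖ ≤ ‖w ^ m - 1‖ * 1 := by gcongr
    linarith

theorem sum_coef (L : ℕ) : ∑ m ∈ range L, (1 - ((m : ℝ) + 1) / ((L : ℝ) + 1)) = L / 2 := by
  rw [Finset.sum_sub_distrib, ← Finset.sum_div, Finset.sum_add_distrib]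
  have h1 : ∑ m ∈ range L, (m : ℝ) = L * (L - 1) / 2 := by
    induction L with
    | zero => simp
    | succ L ih => rw [Finset.sum_range_succ, ih]; push_cast; ring
  rw [h1]
  simp only [sum_const, card_range, nsmul_eq_mul, mul_one]
  field_simp
  ring

theorem sum_coef_mul (L : ℕ) :
    ∑ m ∈ range L, (1 - ((m : ℝ) + 1) / ((L : ℝ) + 1)) * ((m : ℝ) + 1) = L * (L + 2) / 6 := by
  have h0 : (0 : ℝ) < (L : ℝ) + 1 := by positivity
  have h1 : ∀ n : ℕ, ∑ m ∈ range n, ((m : ℝ) + 1) = n * (n + 1) / 2 := by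
    intro n
    induction n with
    | zero => simp
    | succ n ih => rw [Finset.sum_range_succ, ih]; push_cast; ring
  have h2 : ∀ n : ℕ, ∑ m ∈ range n, ((m : ℝ) + 1) ^ 2 =
      (n : ℝ) * ((n : ℝ) + 1) * (2 * (n : ℝ) + 1) / 6 := by
    intro n
    induction n with
    | zero => simp
    | succ n ih => rw [Finset.sum_range_succ, ih]; push_cast; ring
  have h3 : ∀ m ∈ range L, (1 - ((m : ℝ) + 1) / ((L : ℝ) + 1)) * ((m : ℝ) + 1) =
      ((m : ℝ) + 1) - ((m : ℝ) + 1) ^ 2 / ((L : ℝ) + 1) := by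
    intro m _; ring
  rw [Finset.sum_congr rfl h3, Finset.sum_sub_distrib, ← Finset.sum_div, h1, h2]
  field_simp
  ring

theorem one_sub_qf_re_ge {L : ℕ} (hL1 : 1 ≤ L) {w : ℂ} (hw : ‖w‖ ≤ 1) (h : (L : ℝ) * ‖w - 1‖ ≤ 1) :
    ((L : ℝ) + 1) / 2 ≤ (1 - qf L w).re := by
  have h1 : (1 - qf L w) = 1 + 2 * ∑ m ∈ range L,
      ((1 - ((m : ℝ) + 1) / ((L : ℝ) + 1) : ℝ) : ℂ) * w ^ (m + 1) := by
    unfold qf; ring
  rw [h1, Complex.add_re, Complex.one_re]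
  have h2 : (2 * ∑ m ∈ range L, ((1 - ((m : ℝ) + 1) / ((L : ℝ) + 1) : ℝ) : ℂ) * w ^ (m + 1)).re =
      2 * ∑ m ∈ range L, (1 - ((m : ℝ) + 1) / ((L : ℝ) + 1)) * (w ^ (m + 1)).re := by
    have : (2 : ℂ) = ((2 : ℝ) : ℂ) := by norm_num
    rw [this, Complex.re_ofReal_mul, Complex.re_sum]
    congr 1
    apply Finset.sum_congr rfl
    intro m _
    rw [Complex.re_ofReal_mul]
  rw [h2]
  have h3 : ∑ m ∈ range L, (1 - ((m : ℝ) + 1) / ((L : ℝ) + 1)) *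
      (1 - ((m : ℝ) + 1) * ‖w - 1‖) ≤
      ∑ m ∈ range L, (1 - ((m : ℝ) + 1) / ((L : ℝ) + 1)) * (w ^ (m + 1)).re := by
    apply Finset.sum_le_sum
    intro m hm
    obtain ⟨ha, hb⟩ := coef_mem L m hm
    apply mul_le_mul_of_nonneg_left _ ha
    have h4 := norm_pow_sub_one_le hw (m + 1)
    have h5 : (w ^ (m + 1) - 1).re ≥ -‖w ^ (m + 1) - 1‖ := by
      have := Complex.abs_re_le_norm (w ^ (m + 1) - 1)
      exact neg_le_of_abs_le this
    rw [Complex.sub_re, Complex.one_re] at h5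
    push_cast at h4
    linarith
  have h6 : ∑ m ∈ range L, (1 - ((m : ℝ) + 1) / ((L : ℝ) + 1)) *
      (1 - ((m : ℝ) + 1) * ‖w - 1‖) = L / 2 - (L * (L + 2) / 6) * ‖w - 1‖ := by
    rw [← sum_coef L, ← sum_coef_mul L, Finset.sum_mul, ← Finset.sum_sub_distrib]
    apply Finset.sum_congr rfl
    intro m _
    ring
  rw [h6] at h3
  have h7 : (L : ℝ) * (L + 2) / 6 * ‖w - 1‖ ≤ (L + 2) / 6 := by
    have h8 : (0 : ℝ) ≤ ((L : ℝ) + 2) / 6 := by positivity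
    calc (L : ℝ) * (L + 2) / 6 * ‖w - 1‖ = ((L + 2) / 6) * (L * ‖w - 1‖) := by ring
      _ ≤ ((L + 2) / 6) * 1 := by gcongr
      _ = _ := mul_one _
  have hL : (1 : ℝ) ≤ L := by exact_mod_cast hL1
  linarith

end Pool.Agent.helper68.Cyc
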