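import Mathlib

/-!
# Absolutely convergent power series in one variable
-/

open Finset

namespace Pool.Agent.helper68.Cyc

/-- absolute convergence at radius `r` -/
def AC (A : PowerSeries ℂ) (r : ℝ) : Prop := Summable fun n => ‖PowerSeries.coeff n A‖ * r ^ n

/-- evaluation of a power series -/
noncomputable def ev (A : PowerSeries ℂ) (z : ℂ) : ℂ := ∑' n, PowerSeries.coeff n A * z ^ n

/-- the weighted `l^1` norm -/
noncomputable def nrm (A : PowerSeries ℂ) (r : ℝ) : ℝ := ∑' n, ‖PowerSeries.coeff n A‖ * r ^ n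

variable {A B : PowerSeries ℂ} {r : ℝ} {z : ℂ}

theorem AC.summable_norm (h : AC A r) (hz : ‖z‖ ≤ r) :
    Summable fun n => ‖PowerSeries.coeff n A * z ^ n‖ := by
  refine Summable.of_nonneg_of_le (fun _ => norm_nonneg _) (fun n => ?_) h
  rw [norm_mul, norm_pow]
  gcongr

theorem AC.summable (h : AC A r) (hz : ‖z‖ ≤ r) :
    Summable fun n => PowerSeries.coeff n A * z ^ n := (h.summable_norm hz).of_norm

theorem AC.mono {r' : ℝ} (h : AC A r) (h0 : 0 ≤ r') (hr : r' ≤ r) : AC A r' := by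
  refine Summable.of_nonneg_of_le (fun _ => by positivity) (fun n => ?_) h
  gcongr

theorem norm_ev_le (h : AC A r) (hz : ‖z‖ ≤ r) : ‖ev A z‖ ≤ nrm A r := by
  refine (norm_tsum_le_tsum_norm (h.summable_norm hz)).trans ?_
  refine Summable.tsum_le_tsum (fun n => ?_) (h.summable_norm hz) h
  rw [norm_mul, norm_pow]
  gcongr

theorem nrm_nonneg (h0 : 0 ≤ r) : 0 ≤ nrm A r := tsum_nonneg fun n => by positivity

theorem ev_add (hA : AC A r) (hB : AC B r) (hz : ‖z‖ ≤ r) : ev (A + B) z = ev A z + ev B z := by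
  unfold ev
  rw [← (hA.summable hz).tsum_add (hB.summable hz)]
  congr 1
  ext n
  rw [map_add, add_mul]

theorem AC.add (hA : AC A r) (hB : AC B r) (h0 : 0 ≤ r) : AC (A + B) r := by
  refine Summable.of_nonneg_of_le (fun _ => by positivity) (fun n => ?_) (Summable.add hA hB)
  rw [map_add, ← add_mul]
  gcongr
  exact norm_add_le _ _

theorem AC.neg (hA : AC A r) : AC (-A) r := by
  have : (fun n => ‖PowerSeries.coeff n (-A)‖ * r ^ n) =
      fun n => ‖PowerSeries.coeff n A‖ * r ^ n := by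
    ext n; rw [map_neg, norm_neg]
  unfold AC
  rw [this]
  exact hA

theorem ev_neg : ev (-A) z = - ev A z := by
  unfold ev
  rw [← tsum_neg]
  congr 1
  ext n
  rw [map_neg, neg_mul]

theorem AC.sub (hA : AC A r) (hB : AC B r) (h0 : 0 ≤ r) : AC (A - B) r := by
  rw [sub_eq_add_neg]; exact hA.add hB.neg h0

theorem ev_sub (hA : AC A r) (hB : AC B r) (hz : ‖z‖ ≤ r) : ev (A - B) z = ev A z - ev B z := by
  rw [sub_eq_add_neg, ev_add hA hB.neg hz, ev_neg, sub_eq_add_neg]

theorem AC.polynomial (P : Polynomial ℂ) (r : ℝ) : AC (P : PowerSeries ℂ) r := by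
  apply summable_of_ne_finset_zero (s := P.support)
  intro n hn
  rw [Polynomial.coeff_coe, Polynomial.notMem_support_iff.mp hn, norm_zero, zero_mul]

theorem ev_polynomial (P : Polynomial ℂ) (z : ℂ) : ev (P : PowerSeries ℂ) z = P.eval z := by
  unfold ev
  rw [Polynomial.eval_eq_sum, Polynomial.sum_def, tsum_eq_sum (s := P.support)]
  · simp
  · intro n hn
    rw [Polynomial.coeff_coe, Polynomial.notMem_support_iff.mp hn, zero_mul]

theorem AC.one (r : ℝ) : AC 1 r := by
  have := AC.polynomial 1 r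
  rwa [Polynomial.coe_one] at this

theorem ev_one (z : ℂ) : ev 1 z = 1 := by
  have := ev_polynomial 1 z
  rwa [Polynomial.coe_one, Polynomial.eval_one] at this

theorem AC.mul_aux (hA : AC A r) (hB : AC B r) (h0 : 0 ≤ r) :
    AC (A * B) r ∧ nrm (A * B) r ≤ nrm A r * nrm B r := by
  let f : ℕ → ℝ := fun n => ‖PowerSeries.coeff n A‖ * r ^ n
  let g : ℕ → ℝ := fun n => ‖PowerSeries.coeff n B‖ * r ^ n
  have hf : Summable f := hA
  have hg : Summable g := hB
  have hf0 : ∀ n, 0 ≤ f n := fun n => by positivity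
  have hg0 : ∀ n, 0 ≤ g n := fun n => by positivity
  have h1 : Summable fun x : ℕ × ℕ => f x.1 * g x.2 := Summable.mul_of_nonneg hf hg hf0 hg0
  have h2 := summable_sum_mul_antidiagonal_of_summable_mul h1
  have h3 := Summable.tsum_mul_tsum_eq_tsum_sum_antidiagonal hf hg h1
  have hle : ∀ n, ‖PowerSeries.coeff n (A * B)‖ * r ^ n ≤
      ∑ kl ∈ Finset.HasAntidiagonal.antidiagonal n, f kl.1 * g kl.2 := by
    intro n
    rw [PowerSeries.coeff_mul]
    have h4 : ‖∑ p ∈ Finset.HasAntidiagonal.antidiagonal n,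
        PowerSeries.coeff p.1 A * PowerSeries.coeff p.2 B‖ ≤
        ∑ p ∈ Finset.HasAntidiagonal.antidiagonal n,
          ‖PowerSeries.coeff p.1 A * PowerSeries.coeff p.2 B‖ := norm_sum_le _ _
    refine (mul_le_mul_of_nonneg_right h4 (by positivity)).trans (le_of_eq ?_)
    rw [Finset.sum_mul]
    apply Finset.sum_congr rfl
    intro kl hkl
    rw [Finset.HasAntidiagonal.mem_antidiagonal] at hkl
    simp only [f, g]
    rw [norm_mul, ← hkl, pow_add]
    ring
  have hs : AC (A * B) r := Summable.of_nonneg_of_le (fun _ => by positivity) hle h2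
  refine ⟨hs, ?_⟩
  have h5 : nrm A r * nrm B r = (∑' n, f n) * ∑' n, g n := rfl
  rw [h5, h3]
  exact Summable.tsum_le_tsum hle hs h2

theorem AC.mul (hA : AC A r) (hB : AC B r) (h0 : 0 ≤ r) : AC (A * B) r := (hA.mul_aux hB h0).1

theorem ev_mul (hA : AC A r) (hB : AC B r) (hz : ‖z‖ ≤ r) : ev (A * B) z = ev A z * ev B z := by
  unfold ev
  rw [tsum_mul_tsum_eq_tsum_sum_antidiagonal_of_summable_norm (hA.summable_norm hz)
    (hB.summable_norm hz)]
  congr 1
  ext n
  rw [PowerSeries.coeff_mul, Finset.sum_mul]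
  apply Finset.sum_congr rfl
  intro kl hkl
  rw [Finset.HasAntidiagonal.mem_antidiagonal] at hkl
  rw [← hkl, pow_add]
  ring

theorem AC.pow (hA : AC A r) (h0 : 0 ≤ r) (k : ℕ) : AC (A ^ k) r ∧ nrm (A ^ k) r ≤ nrm A r ^ k := by
  induction k with
  | zero =>
    refine ⟨by rw [pow_zero]; exact AC.one r, ?_⟩
    rw [pow_zero, pow_zero]
    unfold nrm
    rw [tsum_eq_single 0]
    · simp
    · intro n hn
      rw [PowerSeries.coeff_one, if_neg hn, norm_zero, zero_mul]
  | succ k ih =>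
    rw [pow_succ, pow_succ]
    have := ih.1.mul_aux hA h0
    refine ⟨this.1, this.2.trans ?_⟩
    exact mul_le_mul_of_nonneg_right ih.2 (nrm_nonneg h0)

theorem ev_pow (hA : AC A r) (hz : ‖z‖ ≤ r) (k : ℕ) : ev (A ^ k) z = ev A z ^ k := by
  induction k with
  | zero => rw [pow_zero, pow_zero, ev_one]
  | succ k ih =>
    rw [pow_succ, pow_succ, ev_mul (hA.pow ((norm_nonneg z).trans hz) k).1 hA hz, ih]

end Pool.Agent.helper68.Cyc
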