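import Pool.Agent.helper68.Cyc.Seq

/-!
# Radii, tails and good points
-/

open Finset Polynomial

namespace Pool.Agent.helper68.Cyc

/-- `δ_i` -/
noncomputable def del (i : ℕ) : ℝ := 1 / ((NN i : ℝ) * (yy i : ℝ) ^ 15)

/-- `ρ_i = 1 - δ_i` -/
noncomputable def rho (i : ℕ) : ℝ := 1 - del i

theorem NN_real_pos (i : ℕ) : (0 : ℝ) < NN i := by exact_mod_cast NN_pos i

theorem NN_real_ge (i : ℕ) : (1 : ℝ) ≤ NN i := by exact_mod_cast NN_pos i

theorem yy_real_pos (i : ℕ) : (0 : ℝ) < yy i := by have := yy_real i; linarith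

theorem del_pos (i : ℕ) : 0 < del i := by
  unfold del
  have h1 := NN_real_pos i
  have h2 := yy_real_pos i
  positivity

theorem del_le (i : ℕ) : del i ≤ 1 / 2 := by
  unfold del
  have h1 := NN_real_ge i
  have h2 := yy_real i
  have h3 : (1 : ℝ) ≤ yy i := by linarith
  have h4 : (yy i : ℝ) ≤ (yy i : ℝ) ^ 15 := le_self_pow₀ h3 (by norm_num)
  apply one_div_le_one_div_of_le two_pos
  calc (2 : ℝ) = 1 * 2 := by norm_num
    _ ≤ (NN i : ℝ) * (yy i : ℝ) ^ 15 := by gcongr; linarith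

theorem NN_mono : Monotone NN := fun _ _ h => Nat.pow_le_pow_right two_pos (yy_mono h)

theorem del_succ_le (i : ℕ) : del (i + 1) ≤ del i / 2 := by
  unfold del
  have h1 := NN_real_pos i
  have h2 := yy_real_pos i
  rw [div_div]
  have h3 : (NN i : ℝ) ≤ NN (i + 1) := by exact_mod_cast NN_mono (Nat.le_succ i)
  have h4 : (2 : ℝ) * yy i ≤ yy (i + 1) := by exact_mod_cast two_mul_yy_le i
  apply one_div_le_one_div_of_le (by positivity)
  calc (NN i : ℝ) * (yy i : ℝ) ^ 15 * 2 = (NN i : ℝ) * (2 * (yy i : ℝ) ^ 15) := by ring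
    _ ≤ (NN i : ℝ) * (2 ^ 15 * (yy i : ℝ) ^ 15) := by gcongr; norm_num
    _ = (NN i : ℝ) * (2 * (yy i : ℝ)) ^ 15 := by rw [mul_pow]
    _ ≤ _ := by gcongr

theorem rho_lt_one (i : ℕ) : rho i < 1 := by unfold rho; linarith [del_pos i]

theorem rho_ge (i : ℕ) : 1 / 2 ≤ rho i := by unfold rho; linarith [del_le i]

theorem rho_pos (i : ℕ) : 0 < rho i := by linarith [rho_ge i]

theorem l1_eq_sum (P : Polynomial ℂ) : l1 P = ∑ n ∈ range (P.natDegree + 1), ‖P.coeff n‖ := by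
  unfold l1 nrm
  rw [tsum_eq_sum (s := range (P.natDegree + 1))]
  · apply Finset.sum_congr rfl
    intro n _
    rw [Polynomial.coeff_coe, one_pow, mul_one]
  · intro n hn
    rw [mem_range, not_lt] at hn
    rw [Polynomial.coeff_coe, coeff_eq_zero_of_natDegree_lt (by omega)]
    simp

theorem eval_sub_eval_le (P : Polynomial ℂ) {D : ℕ} (hD : P.natDegree ≤ D) {ρ : ℝ} (h0 : 0 ≤ ρ)
    (h1 : ρ ≤ 1) {z : ℂ} (hz : ‖z‖ ≤ 1) :
    ‖P.eval (ρ * z) - P.eval z‖ ≤ (1 - ρ) * D * l1 P := by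
  rw [eval_eq_sum_range, eval_eq_sum_range, ← Finset.sum_sub_distrib, l1_eq_sum, Finset.mul_sum]
  refine norm_sum_le_of_le _ fun n hn => ?_
  rw [mem_range] at hn
  have hb : P.coeff n * (ρ * z) ^ n - P.coeff n * z ^ n =
      P.coeff n * (z ^ n * ((ρ : ℂ) ^ n - 1)) := by
    rw [mul_pow]; ring
  rw [hb, norm_mul, norm_mul, norm_pow, mul_comm _ ‖P.coeff n‖]
  apply mul_le_mul_of_nonneg_left _ (norm_nonneg _)
  have hρ : ‖(ρ : ℂ)‖ ≤ 1 := by rw [Complex.norm_real, Real.norm_of_nonneg h0]; exact h1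
  have h2 := norm_pow_sub_one_le hρ n
  have h3 : ‖(ρ : ℂ) - 1‖ = 1 - ρ := by
    rw [← Complex.ofReal_one, ← Complex.ofReal_sub, Complex.norm_real, Real.norm_eq_abs,
      abs_sub_comm, abs_of_nonneg (by linarith)]
  rw [h3] at h2
  have h4 : ‖z‖ ^ n ≤ 1 := pow_le_one₀ (norm_nonneg z) hz
  have h5 : (n : ℝ) ≤ D := by
    have : n ≤ D := by omega
    exact_mod_cast this
  calc ‖z‖ ^ n * ‖(ρ : ℂ) ^ n - 1‖ ≤ 1 * ‖(ρ : ℂ) ^ n - 1‖ := by gcongr
    _ ≤ n * (1 - ρ) := by linarith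
    _ ≤ D * (1 - ρ) := by
        apply mul_le_mul_of_nonneg_right h5; linarith
    _ = _ := by ring

theorem norm_eval_le_of_low (P : Polynomial ℂ) {n : ℕ} (h : ∀ m < n, P.coeff m = 0) {z : ℂ}
    (hz : ‖z‖ ≤ 1) : ‖P.eval z‖ ≤ l1 P * ‖z‖ ^ n := by
  rw [eval_eq_sum_range, l1_eq_sum, Finset.sum_mul]
  refine norm_sum_le_of_le _ fun m _ => ?_
  by_cases hm : m < n
  · rw [h m hm]; simp
  · rw [norm_mul, norm_pow]
    gcongr ‖P.coeff m‖ * ?_
    exact pow_le_pow_of_le_one (norm_nonneg z) hz (by omega)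

theorem one_sub_pow_le {δ : ℝ} (h0 : 0 < δ) (h1 : δ ≤ 1) {n : ℕ} (hn : 0 < n) :
    (1 - δ) ^ n ≤ 1 / (n * δ) := by
  have h2 : 1 - δ ≤ Real.exp (-δ) := by
    have := Real.add_one_le_exp (-δ)
    linarith
  have h3 : (1 - δ) ^ n ≤ Real.exp (-δ) ^ n := by
    gcongr
  rw [← Real.exp_nat_mul] at h3
  refine h3.trans ?_
  have h4 : (n : ℝ) * -δ = -(n * δ) := by ring
  rw [h4, Real.exp_neg, ← one_div]
  have hn' : (0 : ℝ) < n := by exact_mod_cast hn
  apply one_div_le_one_div_of_le (by positivity)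
  have := Real.add_one_le_exp ((n : ℝ) * δ)
  linarith

theorem tail_nat {i j : ℕ} (h : i < j) :
    2 ^ (3 + j) * yy j ^ 7 * NN i * yy i ^ 15 ≤ NN j := by
  have h1 : 2 ^ (3 + j) * yy j ^ 7 * NN i * yy i ^ 15 =
      2 ^ (3 + j + 7 * ee j + yy i + 15 * ee i) := by
    rw [pow_add 2 (3 + j + 7 * ee j + yy i), pow_add 2 (3 + j + 7 * ee j), pow_add 2 (3 + j),
      mul_comm 7, mul_comm 15, pow_mul, pow_mul]
    rfl
  rw [h1]
  exact Nat.pow_le_pow_right two_pos (exponent_ineq h)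

theorem rho_pow_le {i j : ℕ} (h : i < j) :
    2 * (yy j : ℝ) ^ 7 * rho i ^ (NN j / 2) ≤ 1 / 2 ^ (j + 1) := by
  have hpos : 0 < NN j / 2 := by
    have := half_NN j
    have := NN_pos j
    omega
  have h1 := one_sub_pow_le (del_pos i) (by linarith [del_le i]) hpos
  have h2 : ((NN j / 2 : ℕ) : ℝ) = (NN j : ℝ) / 2 := by
    have := half_NN j
    have h3 : (2 : ℝ) * ((NN j / 2 : ℕ) : ℝ) = NN j := by exact_mod_cast this
    linarith
  rw [h2] at h1
  have hN := NN_real_pos j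
  have hNi := NN_real_pos i
  have hy := yy_real_pos i
  have hyj := yy_real_pos j
  have h3 : 1 / ((NN j : ℝ) / 2 * del i) = 2 * (NN i : ℝ) * (yy i : ℝ) ^ 15 / NN j := by
    unfold del
    field_simp
  rw [h3] at h1
  have h4 : (2 : ℝ) ^ (3 + j) * (yy j : ℝ) ^ 7 * NN i * (yy i : ℝ) ^ 15 ≤ NN j := by
    exact_mod_cast tail_nat h
  unfold rho
  calc 2 * (yy j : ℝ) ^ 7 * (1 - del i) ^ (NN j / 2)
      ≤ 2 * (yy j : ℝ) ^ 7 * (2 * (NN i : ℝ) * (yy i : ℝ) ^ 15 / NN j) := by gcongr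
    _ = ((2 : ℝ) ^ (3 + j) * (yy j : ℝ) ^ 7 * NN i * (yy i : ℝ) ^ 15) / NN j * (1 / 2 ^ (j + 1)) := by
        rw [pow_add, pow_add]
        field_simp
    _ ≤ (NN j : ℝ) / NN j * (1 / 2 ^ (j + 1)) := by gcongr
    _ = _ := by rw [div_self hN.ne', one_mul]

theorem block_small {i j : ℕ} (h : i < j) {z : ℂ} (hz : ‖z‖ ≤ rho i) :
    ‖(HH (j + 1) - HH j).eval z‖ ≤ 1 / 2 ^ (j + 1) := by
  have hz1 : ‖z‖ ≤ 1 := hz.trans (rho_lt_one i).le
  have h1 := norm_eval_le_of_low (HH (j + 1) - HH j) (n := NN j / 2)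
    (fun m hm => coeff_diff hm) hz1
  have h2 : l1 (HH (j + 1) - HH j) ≤ 2 * (yy j : ℝ) ^ 7 := by
    rw [HH_succ, add_sub_cancel_left]
    have h3 := (l1_HH j).2
    have h4 : (0 : ℝ) ≤ (yy j : ℝ) ^ 7 := by positivity
    linarith
  refine h1.trans ((?_ : _ ≤ 2 * (yy j : ℝ) ^ 7 * rho i ^ (NN j / 2)).trans (rho_pow_le h))
  have := l1_nonneg (HH (j + 1) - HH j)
  gcongr

theorem tail_small {i I : ℕ} (h : i + 1 ≤ I) {z : ℂ} (hz : ‖z‖ ≤ rho i) :
    ‖(HH I).eval z - (HH (i + 1)).eval z‖ ≤ 1 - 1 / 2 ^ I := by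
  induction I, h using Nat.le_induction with
  | base =>
    rw [sub_self, norm_zero, sub_nonneg, div_le_one (by positivity)]
    exact one_le_pow₀ one_le_two
  | succ n hn ih =>
    have h1 := block_small (j := n) (by omega) hz
    rw [eval_sub] at h1
    have h2 : (HH (n + 1)).eval z - (HH (i + 1)).eval z =
        ((HH (n + 1)).eval z - (HH n).eval z) + ((HH n).eval z - (HH (i + 1)).eval z) := by ring
    rw [h2]
    refine (norm_add_le _ _).trans ?_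
    have h3 : (1 : ℝ) / 2 ^ (n + 1) = (1 / 2 ^ n) / 2 := by rw [pow_succ]; field_simp
    rw [h3] at h1 ⊢
    linarith

theorem tail_small' {i I : ℕ} (h : i + 1 ≤ I) {z : ℂ} (hz : ‖z‖ ≤ rho i) :
    ‖(HH I).eval z - (HH (i + 1)).eval z‖ ≤ 1 := by
  have h1 := tail_small h hz
  have h2 : (0 : ℝ) < 1 / 2 ^ I := by positivity
  linarith

theorem radial_small (i : ℕ) {z : ℂ} (hz : ‖z‖ ≤ 1) :
    ‖(HH (i + 1)).eval (rho i * z) - (HH (i + 1)).eval z‖ ≤ 1 := by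
  have h1 := eval_sub_eval_le (HH (i + 1)) (natDegree_HH_succ i) (rho_pos i).le (rho_lt_one i).le hz
  refine h1.trans ?_
  have h2 := l1_HH_succ i
  have h3 : 1 - rho i = del i := by unfold rho; ring
  rw [h3]
  have hN := NN_real_pos i
  have hy := yy_real_pos i
  have hY := yy_real i
  have hd := del_pos i
  calc del i * ((2 * yy i ^ 6 * NN i : ℕ) : ℝ) * l1 (HH (i + 1))
      ≤ del i * ((2 * yy i ^ 6 * NN i : ℕ) : ℝ) * (2 * (yy i : ℝ) ^ 7) := by gcongr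
    _ = 4 / (yy i : ℝ) ^ 2 := by
        unfold del
        push_cast
        field_simp
        norm_num
    _ ≤ 1 := by
        rw [div_le_one (by positivity)]
        nlinarith

/-- lower bound for the real part at good points -/
theorem good_point {i I : ℕ} (h : i + 1 ≤ I) {z : ℂ} (hz : ‖z‖ = 1)
    (hg : 1 ≤ ((yy i ^ 2 : ℕ) : ℝ) * ‖(rho i * z) ^ NN i - 1‖) :
    bb i - 3 ≤ ((HH I).eval (rho i * z)).re := by
  have hN := NN_real_pos i
  have hy := yy_real_pos i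
  have hY := yy_real i
  have hd := del_pos i
  set w := z ^ NN i with hw
  have hwn : ‖w‖ = 1 := by rw [hw, norm_pow, hz, one_pow]
  have h1 : ‖(rho i * z) ^ NN i - w‖ ≤ 1 / (yy i : ℝ) ^ 15 := by
    have h2 : (rho i * z) ^ NN i - w = w * ((rho i : ℂ) ^ NN i - 1) := by
      rw [mul_pow, hw]; ring
    rw [h2, norm_mul, hwn, one_mul]
    have hρ : ‖(rho i : ℂ)‖ ≤ 1 := by
      rw [Complex.norm_real, Real.norm_of_nonneg (rho_pos i).le]; exact (rho_lt_one i).le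
    refine (norm_pow_sub_one_le hρ _).trans ?_
    have h3 : ‖(rho i : ℂ) - 1‖ = del i := by
      rw [← Complex.ofReal_one, ← Complex.ofReal_sub, Complex.norm_real, Real.norm_eq_abs,
        abs_sub_comm, abs_of_nonneg (by linarith [rho_lt_one i])]
      unfold rho; ring
    rw [h3]
    unfold del
    rw [mul_one_div, mul_comm, ← div_div, div_right_comm]
    rw [div_self hN.ne']
  have h4 : 1 / (2 * (yy i : ℝ) ^ 2) ≤ ‖w - 1‖ := by
    have h5 : ‖(rho i * z) ^ NN i - 1‖ ≤ ‖(rho i * z) ^ NN i - w‖ + ‖w - 1‖ := by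
      have : (rho i * z) ^ NN i - 1 = ((rho i * z) ^ NN i - w) + (w - 1) := by ring
      rw [this]; exact norm_add_le _ _
    push_cast at hg
    have h6 : 1 / (yy i : ℝ) ^ 2 ≤ ‖(rho i * z) ^ NN i - 1‖ := by
      rw [div_le_iff₀ (by positivity), mul_comm]; exact hg
    have h7 : 1 / (yy i : ℝ) ^ 15 ≤ 1 / (2 * (yy i : ℝ) ^ 2) := by
      apply one_div_le_one_div_of_le (by positivity)
      have h8 : (1 : ℝ) ≤ yy i := by linarith
      have h9 : (yy i : ℝ) ^ 3 ≤ (yy i : ℝ) ^ 15 := pow_le_pow_right₀ h8 (by norm_num)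
      have h10 : 2 * (yy i : ℝ) ^ 2 ≤ (yy i : ℝ) ^ 3 := by
        rw [pow_succ _ 2, mul_comm]; gcongr; linarith
      linarith
    have h11 : 1 / (yy i : ℝ) ^ 2 = 2 * (1 / (2 * (yy i : ℝ) ^ 2)) := by field_simp
    linarith
  have hw1 : w ≠ 1 := by
    intro h12
    rw [h12, sub_self, norm_zero] at h4
    have : 0 < 1 / (2 * (yy i : ℝ) ^ 2) := by positivity
    linarith
  have hk := kf_le hwn hw1 (yy i ^ 6)
  have hk2 : kf (yy i ^ 6) w ≤ 16 / (yy i : ℝ) ^ 2 := by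
    refine hk.trans ?_
    rw [norm_sub_rev]
    push_cast
    have h13 : (yy i : ℝ) ^ 6 * (1 / (2 * (yy i : ℝ) ^ 2)) ^ 2 ≤
        ((yy i : ℝ) ^ 6 + 1) * ‖w - 1‖ ^ 2 := by gcongr; linarith
    have h14 : (yy i : ℝ) ^ 6 * (1 / (2 * (yy i : ℝ) ^ 2)) ^ 2 = (yy i : ℝ) ^ 2 / 4 := by
      field_simp; norm_num
    rw [h14] at h13
    calc 4 / (((yy i : ℝ) ^ 6 + 1) * ‖w - 1‖ ^ 2) ≤ 4 / ((yy i : ℝ) ^ 2 / 4) := by gcongr
      _ = _ := by field_simp; norm_num
  have hH := eval_HH_succ_re i hz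
  have h15 : bb i - ((HH i).eval z).re ≤ 0.6 * yy i := by
    have h16 := norm_eval_le_l1 (HH i) hz.le
    have h17 := (l1_HH i).1
    have h18 := (abs_le.mp (Complex.abs_re_le_norm ((HH i).eval z))).1
    have h19 := bb_le i
    linarith
  have h16 : (bb i - ((HH i).eval z).re) * kf (yy i ^ 6) w ≤ 1 := by
    calc (bb i - ((HH i).eval z).re) * kf (yy i ^ 6) w
        ≤ (0.6 * yy i) * kf (yy i ^ 6) w := by
          apply mul_le_mul_of_nonneg_right h15 (kf_nonneg _ _)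
      _ ≤ (0.6 * yy i) * (16 / (yy i : ℝ) ^ 2) := by gcongr
      _ = 9.6 / yy i := by field_simp; norm_num
      _ ≤ 1 := by rw [div_le_one hy]; linarith
  have h17 := radial_small i hz.le
  have h18 : ‖(rho i : ℂ) * z‖ ≤ rho i := by
    rw [norm_mul, hz, mul_one, Complex.norm_real, Real.norm_of_nonneg (rho_pos i).le]
  have h19 := tail_small' h h18
  have h20 := (abs_le.mp ((Complex.abs_re_le_norm _).trans h17)).1
  have h21 := (abs_le.mp ((Complex.abs_re_le_norm _).trans h19)).1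
  rw [Complex.sub_re] at h20 h21
  linarith

theorem special_point {I : ℕ} (h : 1 ≤ I) : ((HH I).eval (rho 0 : ℂ)).re ≤ 2 - (yy 0 : ℝ) ^ 7 / 4 := by
  have h1 := eval_HH_succ_re 0 (z := 1) norm_one
  rw [one_pow, kf_one, HH_zero] at h1
  have h2 : ((0 : Polynomial ℂ).eval 1).re = 0 := by simp
  rw [h2] at h1
  have h17 := radial_small 0 (z := 1) norm_one.le
  rw [mul_one] at h17
  have h18 : ‖(rho 0 : ℂ)‖ ≤ rho 0 := by
    rw [Complex.norm_real, Real.norm_of_nonneg (rho_pos 0).le]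
  have h19 := tail_small' h h18
  have h20 := (abs_le.mp ((Complex.abs_re_le_norm _).trans h17)).2
  have h21 := (abs_le.mp ((Complex.abs_re_le_norm _).trans h19)).2
  rw [Complex.sub_re] at h20 h21
  have h3 := bb_ge 0
  have hy := yy_real_pos 0
  push_cast at h1
  have h4 : (yy 0 : ℝ) ^ 7 / 4 ≤ bb 0 * (yy 0 : ℝ) ^ 6 := by
    calc (yy 0 : ℝ) ^ 7 / 4 = (yy 0 : ℝ) / 4 * (yy 0 : ℝ) ^ 6 := by ring
      _ ≤ _ := by gcongr
  linarith

end Pool.Agent.helper68.Cyc
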