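import Pool.Agent.helper68.Cyc.Block

/-!
# The sequence of polynomials
-/

open Finset Polynomial

namespace Pool.Agent.helper68.Cyc

/-- exponents -/
def ee (i : ℕ) : ℕ := 16 * 9 ^ i

/-- `y_i` -/
def yy (i : ℕ) : ℕ := 2 ^ ee i

/-- `N_i` -/
def NN (i : ℕ) : ℕ := 2 ^ yy i

/-- the bounds for the real parts -/
noncomputable def bb (i : ℕ) : ℝ := ((yy i : ℝ) * Real.log 2 - 20 * ((ee i : ℝ) * Real.log 2)) / 2

theorem ee_succ (i : ℕ) : ee (i + 1) = 9 * ee i := by unfold ee; ring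

theorem ee_ge (i : ℕ) : 16 ≤ ee i := by
  unfold ee
  have := Nat.one_le_pow i 9 (by norm_num)
  omega

theorem le_ee (i : ℕ) : i ≤ ee i := by
  unfold ee
  have : i < 9 ^ i := Nat.lt_pow_self (by norm_num)
  omega

theorem two_pow_ge (e : ℕ) (he : 16 ≤ e) : 72 * e ≤ 2 ^ e := by
  induction e, he using Nat.le_induction with
  | base => norm_num
  | succ n hn ih => rw [pow_succ]; omega

theorem yy_ge_ee (i : ℕ) : 72 * ee i ≤ yy i := two_pow_ge _ (ee_ge i)

theorem yy_ge (i : ℕ) : 65536 ≤ yy i := by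
  unfold yy
  calc 65536 = 2 ^ 16 := by norm_num
    _ ≤ 2 ^ ee i := Nat.pow_le_pow_right (by norm_num) (ee_ge i)

theorem yy_succ (i : ℕ) : yy (i + 1) = yy i ^ 9 := by
  unfold yy
  rw [ee_succ, ← pow_mul, mul_comm]

theorem two_mul_yy_le (i : ℕ) : 2 * yy i ≤ yy (i + 1) := by
  rw [yy_succ]
  have h := yy_ge i
  calc 2 * yy i ≤ yy i ^ 8 * yy i := by
        gcongr
        calc 2 ≤ yy i := by omega
          _ = yy i ^ 1 := (pow_one _).symm
          _ ≤ yy i ^ 8 := Nat.pow_le_pow_right (by omega) (by norm_num)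
    _ = _ := by ring

theorem yy_mono : Monotone yy := by
  apply monotone_nat_of_le_succ
  intro i
  have := two_mul_yy_le i
  omega

theorem ee_mono : Monotone ee := by
  apply monotone_nat_of_le_succ
  intro i
  rw [ee_succ]
  omega

theorem exponent_ineq {i j : ℕ} (h : i < j) : 3 + j + 7 * ee j + yy i + 15 * ee i ≤ yy j := by
  obtain ⟨k, rfl⟩ : ∃ k, j = k + 1 := ⟨j - 1, by omega⟩
  have h1 : yy i ≤ yy k := yy_mono (by omega)
  have h2 := two_mul_yy_le k
  have h3 : ee i ≤ ee (k + 1) := ee_mono (by omega)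
  have h4 := yy_ge_ee (k + 1)
  have h5 := ee_ge (k + 1)
  have h6 := le_ee (k + 1)
  omega

theorem NN_pos (i : ℕ) : 0 < NN i := by unfold NN; positivity

theorem yy_real (i : ℕ) : (65536 : ℝ) ≤ yy i := by exact_mod_cast yy_ge i

theorem yy_succ_real (i : ℕ) : (yy (i + 1) : ℝ) = (yy i : ℝ) ^ 9 := by
  rw [yy_succ]; push_cast; rfl

theorem ee_real (i : ℕ) : 72 * (ee i : ℝ) ≤ yy i := by exact_mod_cast yy_ge_ee i

theorem bb_ge (i : ℕ) : (yy i : ℝ) / 4 ≤ bb i := by
  unfold bb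
  have h1 := Real.log_two_gt_d9
  have h2 := Real.log_two_lt_d9
  have h3 := ee_real i
  have h4 : (0 : ℝ) ≤ ee i := by positivity
  have h5 := yy_real i
  have h6 : (yy i : ℝ) * 0.693 ≤ (yy i : ℝ) * Real.log 2 := by gcongr; linarith
  have h7 : (ee i : ℝ) * Real.log 2 ≤ (ee i : ℝ) * 0.694 := by gcongr; linarith
  linarith

theorem bb_le (i : ℕ) : bb i ≤ 0.35 * yy i := by
  unfold bb
  have h1 := Real.log_two_gt_d9
  have h2 := Real.log_two_lt_d9
  have h4 : (0 : ℝ) ≤ (ee i : ℝ) * Real.log 2 := by positivity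
  have h5 := yy_real i
  have h6 : (yy i : ℝ) * Real.log 2 ≤ (yy i : ℝ) * 0.7 := by gcongr; linarith
  linarith

theorem bb_pos (i : ℕ) : 0 < bb i := by
  have := bb_ge i
  have := yy_real i
  linarith

theorem exp_log_NN (i : ℕ) : Real.exp ((yy i : ℝ) * Real.log 2) = NN i := by
  unfold NN
  rw [Real.exp_nat_mul, Real.exp_log two_pos]
  push_cast; rfl

theorem exp_log_yy (i : ℕ) : Real.exp ((ee i : ℝ) * Real.log 2) = yy i := by
  unfold yy
  rw [Real.exp_nat_mul, Real.exp_log two_pos]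
  push_cast; rfl

theorem exp_two_bb (i : ℕ) : Real.exp (2 * bb i) = NN i / (yy i : ℝ) ^ 20 := by
  have h : 2 * bb i = (yy i : ℝ) * Real.log 2 - ((20 : ℕ) : ℝ) * ((ee i : ℝ) * Real.log 2) := by
    unfold bb; push_cast; ring
  rw [h, Real.exp_sub, exp_log_NN, Real.exp_nat_mul, exp_log_yy]

/-- the polynomials `H_i` -/
noncomputable def HH : ℕ → Polynomial ℂ
  | 0 => 0
  | (i + 1) => HH i + blk (bb i) (NN i) (yy i ^ 6) (HH i)

theorem HH_zero : HH 0 = 0 := rfl

theorem HH_succ (i : ℕ) : HH (i + 1) = HH i + blk (bb i) (NN i) (yy i ^ 6) (HH i) := rfl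

theorem l1_HH (i : ℕ) : l1 (HH i) ≤ yy i / 4 ∧
    l1 (blk (bb i) (NN i) (yy i ^ 6) (HH i)) ≤ 1.2 * (yy i : ℝ) ^ 7 := by
  have key : ∀ i, l1 (HH i) ≤ yy i / 4 →
      l1 (blk (bb i) (NN i) (yy i ^ 6) (HH i)) ≤ 1.2 * (yy i : ℝ) ^ 7 := by
    intro i ih
    have h2 := l1_blk_le (bb_pos i).le (NN i) (yy i ^ 6) (HH i)
    have h3 := bb_le i
    have hY := yy_real i
    push_cast at h2
    have h4 : 2 * (yy i : ℝ) ^ 6 * (bb i + l1 (HH i)) ≤ 2 * (yy i : ℝ) ^ 6 * (0.6 * yy i) := by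
      gcongr
      linarith
    calc _ ≤ _ := h2
      _ ≤ _ := h4
      _ = _ := by ring
  have main : ∀ i, l1 (HH i) ≤ yy i / 4 := by
    intro i
    induction i with
    | zero => rw [HH_zero, l1_zero]; positivity
    | succ i ih =>
      have h1 := l1_add_le (HH i) (blk (bb i) (NN i) (yy i ^ 6) (HH i))
      have h2 := key i ih
      rw [← HH_succ] at h1
      have hY := yy_real i
      rw [yy_succ_real]
      have h6 : (1 : ℝ) ≤ (yy i : ℝ) := by linarith
      have h5 : (yy i : ℝ) ≤ (yy i : ℝ) ^ 7 := le_self_pow₀ h6 (by norm_num)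
      have h7 : (yy i : ℝ) ^ 7 * (65536 * 65536) ≤ (yy i : ℝ) ^ 9 := by
        calc (yy i : ℝ) ^ 7 * (65536 * 65536) ≤ (yy i : ℝ) ^ 7 * ((yy i : ℝ) * yy i) := by gcongr
          _ = _ := by ring
      have h8 : (0 : ℝ) ≤ (yy i : ℝ) ^ 7 := by positivity
      linarith
  exact ⟨main i, key i (main i)⟩

theorem l1_HH_succ (i : ℕ) : l1 (HH (i + 1)) ≤ 2 * (yy i : ℝ) ^ 7 := by
  have h1 := l1_add_le (HH i) (blk (bb i) (NN i) (yy i ^ 6) (HH i))
  rw [← HH_succ] at h1
  obtain ⟨h2, h3⟩ := l1_HH i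
  have hY := yy_real i
  have h6 : (1 : ℝ) ≤ (yy i : ℝ) := by linarith
  have h5 : (yy i : ℝ) ≤ (yy i : ℝ) ^ 7 := le_self_pow₀ h6 (by norm_num)
  linarith

theorem l1_HH_le_bb (i : ℕ) : l1 (HH i) ≤ bb i := (l1_HH i).1.trans (bb_ge i)

theorem half_NN (i : ℕ) : 2 * (NN i / 2) = NN i := by
  have h : 1 ≤ yy i := by have := yy_ge i; omega
  unfold NN
  obtain ⟨k, hk⟩ : ∃ k, yy i = k + 1 := ⟨yy i - 1, by omega⟩
  rw [hk, pow_succ]
  omega

theorem natDegree_step (i : ℕ) (h : (HH i).natDegree ≤ NN i / 2) :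
    (HH (i + 1)).natDegree ≤ 2 * yy i ^ 6 * NN i := by
  rw [HH_succ]
  refine (natDegree_add_le _ _).trans ?_
  have h1 := natDegree_blk_le (b := bb i) (N := NN i) (M := yy i ^ 6) h
  have h2 : 1 ≤ yy i ^ 6 := Nat.one_le_pow _ _ (by have := yy_ge i; omega)
  have h3 : NN i ≤ yy i ^ 6 * NN i := Nat.le_mul_of_pos_left _ (by omega)
  apply max_le
  · have : NN i / 2 ≤ NN i := Nat.div_le_self _ _
    rw [mul_assoc]
    omega
  · have : NN i / 2 ≤ NN i := Nat.div_le_self _ _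
    rw [mul_assoc]
    omega

theorem natDegree_HH (i : ℕ) : (HH i).natDegree ≤ NN i / 2 := by
  induction i with
  | zero => simp [HH_zero]
  | succ i ih =>
    refine (natDegree_step i ih).trans ?_
    rw [Nat.le_div_iff_mul_le two_pos]
    have h1 : 2 * yy i ^ 6 * NN i * 2 = 2 ^ (2 + 6 * ee i + yy i) := by
      unfold NN
      rw [pow_add, pow_add, mul_comm 6, pow_mul]
      rw [show (2 ^ ee i) = yy i from rfl]
      ring
    rw [h1]
    unfold NN
    apply Nat.pow_le_pow_right two_pos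
    have h2 := exponent_ineq (Nat.lt_succ_self i)
    have h3 := ee_mono (Nat.le_succ i)
    simp only [Nat.succ_eq_add_one] at h2 h3
    omega

theorem natDegree_HH_succ (i : ℕ) : (HH (i + 1)).natDegree ≤ 2 * yy i ^ 6 * NN i :=
  natDegree_step i (natDegree_HH i)

theorem coeff_diff {i m : ℕ} (hm : m < NN i / 2) :
    (HH (i + 1) - HH i).coeff m = 0 := by
  rw [HH_succ, add_sub_cancel_left]
  apply coeff_blk_low (natDegree_HH i)
  have := half_NN i
  omega

theorem eval_HH_succ_re (i : ℕ) {z : ℂ} (hz : ‖z‖ = 1) :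
    ((HH (i + 1)).eval z).re = bb i - (bb i - ((HH i).eval z).re) * kf (yy i ^ 6) (z ^ NN i) := by
  have hN : (HH i).natDegree ≤ NN i := (natDegree_HH i).trans (Nat.div_le_self _ _)
  rw [HH_succ, eval_add, eval_blk hN hz, Complex.add_re, Complex.re_ofReal_mul, qf_re]
  · ring
  · rw [norm_pow, hz, one_pow]

/-- `b 0 = 0`, `b (i+1) = bb i` -/
noncomputable def bq : ℕ → ℝ
  | 0 => 0
  | (i + 1) => bb i

theorem bb_le_succ (i : ℕ) : bb i ≤ bb (i + 1) := by
  have h1 := bb_le i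
  have h2 := bb_ge (i + 1)
  have h3 : (2 : ℝ) * yy i ≤ yy (i + 1) := by exact_mod_cast two_mul_yy_le i
  linarith

theorem bq_mono : Monotone bq := by
  apply monotone_nat_of_le_succ
  intro i
  cases i with
  | zero => exact (bb_pos 0).le
  | succ i => exact bb_le_succ i

theorem bq_nonneg (i : ℕ) : 0 ≤ bq i := bq_mono (Nat.zero_le i)

theorem HH_re_le (i : ℕ) : ∀ z : ℂ, ‖z‖ ≤ 1 → ((HH i).eval z).re ≤ bq i := by
  induction i with
  | zero => intro z _; simp [HH_zero, bq]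
  | succ i ih =>
    intro z hz
    have hd : Differentiable ℂ fun w => (HH (i + 1)).eval w := Polynomial.differentiable _
    apply re_le_of_circle hd _ hz
    intro w hw
    rw [eval_HH_succ_re i hw]
    have h1 := ih w hw.le
    have h2 : bq i ≤ bb i := bq_mono (Nat.le_succ i)
    have h3 : 0 ≤ (bb i - ((HH i).eval w).re) * kf (yy i ^ 6) (w ^ NN i) :=
      mul_nonneg (by linarith) (kf_nonneg _ _)
    show _ ≤ bb i
    linarith

end Pool.Agent.helper68.Cyc
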