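import Pool.Agent.helper68.Cyc.Radii

/-!
# The downward induction
-/

open Finset Polynomial

namespace Pool.Agent.helper68.Cyc

/-- mean square on the circle of radius `r` -/
noncomputable def avg (g : ℂ → ℂ) (r : ℝ) : ℝ :=
  (2 * Real.pi)⁻¹ * ∫ θ in (0 : ℝ)..(2 * Real.pi), ‖g (r * cis θ)‖ ^ 2

theorem avg_eq (g : ℂ → ℂ) (r : ℝ) : Real.circleAverage (fun z => ‖g z‖ ^ 2) 0 r = avg g r := by
  unfold avg Real.circleAverage
  rw [smul_eq_mul]
  congr 2
  ext θ
  simp [circleMap, cis]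

theorem avg_le {f g : ℂ → ℂ} (hf : Continuous f) (hg : Continuous g) {r a b : ℝ}
    (h : ∀ θ : ℝ, ‖f (r * cis θ)‖ ^ 2 ≤ a + b * ‖g (r * cis θ)‖ ^ 2) :
    avg f r ≤ a + b * avg g r := by
  unfold avg
  have hpi := Real.two_pi_pos
  have hcf : Continuous fun θ : ℝ => ‖f (r * cis θ)‖ ^ 2 :=
    (hf.comp (continuous_const.mul continuous_cis)).norm.pow 2
  have hcg : Continuous fun θ : ℝ => ‖g (r * cis θ)‖ ^ 2 :=
    (hg.comp (continuous_const.mul continuous_cis)).norm.pow 2
  have h1 : ∫ θ in (0 : ℝ)..(2 * Real.pi), ‖f (r * cis θ)‖ ^ 2 ≤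
      ∫ θ in (0 : ℝ)..(2 * Real.pi), (a + b * ‖g (r * cis θ)‖ ^ 2) := by
    apply intervalIntegral.integral_mono_on (by positivity)
    · exact hcf.intervalIntegrable _ _
    · exact (continuous_const.add (continuous_const.mul hcg)).intervalIntegrable _ _
    · intro θ _
      exact h θ
  have hci : IntervalIntegrable (fun θ : ℝ => b * ‖g (r * cis θ)‖ ^ 2) MeasureTheory.volume 0
      (2 * Real.pi) := (continuous_const.mul hcg).intervalIntegrable _ _
  rw [intervalIntegral.integral_add (intervalIntegrable_const) hci,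
    intervalIntegral.integral_const_mul,
    intervalIntegral.integral_const, smul_eq_mul, sub_zero] at h1
  calc _ ≤ (2 * Real.pi)⁻¹ * (2 * Real.pi * a +
        b * ∫ θ in (0 : ℝ)..(2 * Real.pi), ‖g (r * cis θ)‖ ^ 2) := by gcongr
    _ = _ := by field_simp

theorem avg_nonneg (g : ℂ → ℂ) (r : ℝ) : 0 ≤ avg g r := by
  unfold avg
  have h : 0 ≤ ∫ θ in (0 : ℝ)..(2 * Real.pi), ‖g (r * cis θ)‖ ^ 2 := by
    apply intervalIntegral.integral_nonneg (by positivity)
    intro θ _
    positivity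
  positivity

/-- the multiplier -/
noncomputable def mult (A : ℝ) (L N : ℕ) (z : ℂ) : ℂ :=
  Complex.exp (-((2 * A / ((L : ℝ) + 1) : ℝ) : ℂ) * (1 - qf L (z ^ N)))

theorem norm_mult (A : ℝ) (L N : ℕ) (z : ℂ) :
    ‖mult A L N z‖ = Real.exp (-(2 * A / ((L : ℝ) + 1)) * (1 - qf L (z ^ N)).re) := by
  unfold mult
  rw [Complex.norm_exp, ← Complex.ofReal_neg, Complex.re_ofReal_mul]

theorem differentiable_mult (A : ℝ) (L N : ℕ) : Differentiable ℂ (mult A L N) := by
  unfold mult
  have h : Differentiable ℂ fun z : ℂ => qf L (z ^ N) :=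
    (differentiable_qf L).comp (differentiable_pow N)
  fun_prop

/-- the weighted function `p e^{H}` is close to one; the bound for `p` propagates inwards -/
theorem step {p : Polynomial ℂ} {I k : ℕ} (hI : k + 2 ≤ I) {ε : ℝ} (hε : ε ≤ 1)
    (hp : (1 - rho (k + 1) ^ 2) *
      avg (fun z => p.eval z * Complex.exp ((HH I).eval z) - 1) (rho (k + 1)) ≤ ε)
    (hsup : ∀ z, ‖z‖ ≤ rho (k + 1) → ‖p.eval z‖ ≤ Real.exp (4 * yy (k + 1)))
    {z : ℂ} (hz : ‖z‖ ≤ rho k) : ‖p.eval z‖ ≤ Real.exp (4 * yy k) := by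
  set K := k + 1 with hK
  set Y : ℝ := (yy K : ℝ) with hYdef
  set y : ℝ := (yy k : ℝ) with hydef
  set A : ℝ := 4 * Y with hA
  set L : ℕ := yy K ^ 2 with hL
  set ψ := mult A L (NN K) with hψ
  set u : ℂ → ℂ := fun z => p.eval z * Complex.exp ((HH I).eval z) - 1 with hu
  have hYy : Y = y ^ 9 := yy_succ_real k
  have hY : (65536 : ℝ) ≤ Y := yy_real K
  have hY0 : 0 < Y := by linarith
  have hy : (65536 : ℝ) ≤ y := yy_real k
  have hy0 : 0 < y := by linarith
  have hdK := del_pos K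
  have hdk := del_pos k
  have hdd : del K ≤ del k / 2 := del_succ_le k
  have hLr : (L : ℝ) = Y ^ 2 := by rw [hL]; push_cast; rfl
  have hA0 : 0 ≤ A := by positivity
  have hρK1 := rho_lt_one K
  have hρK := rho_pos K
  have hwK : ∀ z : ℂ, ‖z‖ ≤ rho K → ‖z ^ NN K‖ ≤ 1 := by
    intro z hz
    rw [norm_pow]
    exact pow_le_one₀ (norm_nonneg z) (hz.trans hρK1.le)
  -- pointwise estimate on the circle
  have hpt : ∀ θ : ℝ, ‖p.eval (rho K * cis θ) * ψ (rho K * cis θ)‖ ^ 2 ≤
      (1 + 2 * Real.exp (6 - 2 * bb K)) + (2 * Real.exp (6 - 2 * bb K)) *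
        ‖u (rho K * cis θ)‖ ^ 2 := by
    intro θ
    set z0 : ℂ := cis θ with hz0
    set z : ℂ := rho K * z0 with hzz
    have hzn : ‖z‖ = rho K := norm_mul_cis hρK.le θ
    have hw := hwK z hzn.le
    have hexp := Real.exp_pos (6 - 2 * bb K)
    by_cases hg : 1 ≤ (L : ℝ) * ‖z ^ NN K - 1‖
    · -- good point
      have h1 := good_point (i := K) (I := I) (by omega) (z := z0) (norm_cis θ) hg
      have h2 : ‖ψ z‖ ≤ 1 := by
        rw [hψ, norm_mult]
        rw [Real.exp_le_one_iff]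
        have h3 := one_sub_qf_re_nonneg L hw
        have h4 : 0 ≤ 2 * A / ((L : ℝ) + 1) := by positivity
        nlinarith
      have h3 : ‖p.eval z * Complex.exp ((HH I).eval z)‖ =
          ‖p.eval z‖ * Real.exp ((HH I).eval z).re := by
        rw [norm_mul, Complex.norm_exp]
      have h4 : ‖p.eval z * Complex.exp ((HH I).eval z)‖ ^ 2 ≤ 2 * ‖u z‖ ^ 2 + 2 := by
        have h5 : ‖p.eval z * Complex.exp ((HH I).eval z)‖ ≤ ‖u z‖ + 1 := by
          have : p.eval z * Complex.exp ((HH I).eval z) = u z + 1 := by rw [hu]; ring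
          rw [this]
          refine (norm_add_le _ _).trans ?_
          rw [norm_one]
        have h6 := norm_nonneg (p.eval z * Complex.exp ((HH I).eval z))
        nlinarith [sq_nonneg (‖u z‖ - 1)]
      have h5 : ‖p.eval z‖ ^ 2 ≤ Real.exp (6 - 2 * bb K) * (2 * ‖u z‖ ^ 2 + 2) := by
        have h6 : ‖p.eval z‖ = Real.exp (-((HH I).eval z).re) *
            ‖p.eval z * Complex.exp ((HH I).eval z)‖ := by
          rw [h3, mul_comm (‖p.eval z‖), ← mul_assoc, ← Real.exp_add, neg_add_cancel,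
            Real.exp_zero, one_mul]
        rw [h6, mul_pow, ← Real.exp_nat_mul]
        have h7 : Real.exp (((2 : ℕ) : ℝ) * -((HH I).eval z).re) ≤ Real.exp (6 - 2 * bb K) := by
          apply Real.exp_le_exp.mpr
          push_cast
          linarith
        gcongr
      calc ‖p.eval z * ψ z‖ ^ 2 ≤ ‖p.eval z‖ ^ 2 := by
            rw [norm_mul]
            have := mul_le_mul_of_nonneg_left h2 (norm_nonneg (p.eval z))
            rw [mul_one] at this
            gcongr
        _ ≤ _ := h5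
        _ ≤ _ := by linarith
    · -- bad point
      push Not at hg
      have hL1 : 1 ≤ L := by
        rw [hL]; exact Nat.one_le_pow _ _ (by have := yy_ge K; omega)
      have h1 := one_sub_qf_re_ge hL1 hw hg.le
      have h2 : ‖ψ z‖ ≤ Real.exp (-A) := by
        rw [hψ, norm_mult]
        apply Real.exp_le_exp.mpr
        have h4 : 0 ≤ 2 * A / ((L : ℝ) + 1) := by positivity
        have h5 : 2 * A / ((L : ℝ) + 1) * (((L : ℝ) + 1) / 2) = A := by field_simp
        have h6 := mul_le_mul_of_nonneg_left h1 h4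
        rw [h5] at h6
        linarith
      have h3 := hsup z hzn.le
      have h4 : ‖p.eval z * ψ z‖ ≤ 1 := by
        rw [norm_mul]
        calc ‖p.eval z‖ * ‖ψ z‖ ≤ Real.exp (4 * yy K) * Real.exp (-A) := by gcongr
          _ = 1 := by rw [← Real.exp_add, hA, hYdef, add_neg_cancel, Real.exp_zero]
      have h5 : ‖p.eval z * ψ z‖ ^ 2 ≤ 1 := pow_le_one₀ (norm_nonneg _) h4
      have h6 : 0 ≤ 2 * Real.exp (6 - 2 * bb K) * ‖u z‖ ^ 2 := by positivity
      linarith
  have hdp : Differentiable ℂ fun z => p.eval z := Polynomial.differentiable _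
  have hdH : Differentiable ℂ fun z => (HH I).eval z := Polynomial.differentiable _
  have hdψ : Differentiable ℂ ψ := differentiable_mult _ _ _
  have hdu : Differentiable ℂ u := (hdp.mul hdH.cexp).sub_const 1
  have hav := avg_le (f := fun z => p.eval z * ψ z) (g := u)
    (hdp.continuous.mul hdψ.continuous) hdu.continuous hpt
  have hau : avg u (rho K) ≤ 1 / del K := by
    rw [le_div_iff₀ hdK, mul_comm]
    have h1 : del K ≤ 1 - rho K ^ 2 := by
      have : 1 - rho K ^ 2 = (1 - rho K) * (1 + rho K) := by ring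
      rw [this]
      have h2 : 1 - rho K = del K := by unfold rho; ring
      rw [h2]
      nlinarith
    calc del K * avg u (rho K) ≤ (1 - rho K ^ 2) * avg u (rho K) := by
          apply mul_le_mul_of_nonneg_right h1 (avg_nonneg _ _)
      _ ≤ ε := hp
      _ ≤ 1 := hε
  have hdK1 : 1 ≤ 1 / del K := by
    rw [le_div_iff₀ hdK]
    linarith [del_le K]
  have hav2 : avg (fun z => p.eval z * ψ z) (rho K) ≤ 2917 * Y ^ 35 := by
    have h1 : Real.exp (6 - 2 * bb K) / del K ≤ 729 * Y ^ 35 := by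
      rw [Real.exp_sub, exp_two_bb]
      have h2 : Real.exp 6 ≤ 729 := by
        have h3 : (6 : ℝ) = ((6 : ℕ) : ℝ) * 1 := by norm_num
        rw [h3, Real.exp_nat_mul]
        calc Real.exp 1 ^ 6 ≤ 3 ^ 6 := by
              have := Real.exp_one_lt_d9
              gcongr
              linarith
          _ = 729 := by norm_num
      have hN := NN_real_pos K
      have h4 : Real.exp 6 / ((NN K : ℝ) / (yy K : ℝ) ^ 20) / del K = Real.exp 6 * Y ^ 35 := by
        unfold del
        rw [← hYdef]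
        field_simp
      rw [h4]
      gcongr
    have h2 : 2 * Real.exp (6 - 2 * bb K) ≤ 2 * Real.exp (6 - 2 * bb K) * (1 / del K) := by
      have := Real.exp_pos (6 - 2 * bb K)
      nlinarith
    have h3 : 2 * Real.exp (6 - 2 * bb K) * avg u (rho K) ≤
        2 * Real.exp (6 - 2 * bb K) * (1 / del K) := by
      have := Real.exp_pos (6 - 2 * bb K)
      gcongr
    have h4 : (1 : ℝ) ≤ Y ^ 35 := one_le_pow₀ (by linarith)
    have h5 : 2 * Real.exp (6 - 2 * bb K) * (1 / del K) =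
        2 * (Real.exp (6 - 2 * bb K) / del K) := by ring
    rw [h5] at h2 h3
    calc avg (fun z => p.eval z * ψ z) (rho K) ≤ _ := hav
      _ ≤ 1 + 2 * (Real.exp (6 - 2 * bb K) / del K) + 2 * (Real.exp (6 - 2 * bb K) / del K) := by
          linarith
      _ ≤ 2917 * Y ^ 35 := by linarith
  have hzK : ‖z‖ < rho K := by
    refine hz.trans_lt ?_
    unfold rho
    linarith
  have hC := sq_norm_le_circle_mean (g := fun z => p.eval z * ψ z) (hdp.mul hdψ) hzK
  have hC2 : ‖p.eval z * ψ z‖ ^ 2 ≤ (2 / del k) * (2917 * Y ^ 35) := by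
    refine hC.trans ?_
    have h1 : rho K / (rho K - ‖z‖) ≤ 2 / del k := by
      have h2 : del k / 2 ≤ rho K - ‖z‖ := by
        unfold rho at hz ⊢
        linarith
      calc rho K / (rho K - ‖z‖) ≤ 1 / (del k / 2) := by gcongr
        _ = _ := by field_simp
    have h3 := avg_nonneg (fun z => p.eval z * ψ z) (rho K)
    change rho K / (rho K - ‖z‖) * avg (fun z => p.eval z * ψ z) (rho K) ≤ _
    gcongr
  -- lower bound for the multiplier
  have hψz : Real.exp (-1) ≤ ‖ψ z‖ := by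
    rw [hψ, norm_mult]
    apply Real.exp_le_exp.mpr
    have h0 : ‖z‖ ≤ 1 := hz.trans (rho_lt_one k).le
    have h1 : ‖qf L (z ^ NN K)‖ ≤ 2 * L * ‖z ^ NN K‖ := norm_qf_le L (hwK z hzK.le)
    have h2 : 2 * (L : ℝ) * ‖z ^ NN K‖ ≤ 1 := by
      rw [norm_pow, hLr]
      have h3 : ‖z‖ ^ NN K ≤ rho k ^ (NN K / 2) := by
        calc ‖z‖ ^ NN K ≤ ‖z‖ ^ (NN K / 2) :=
              pow_le_pow_of_le_one (norm_nonneg z) h0 (Nat.div_le_self _ _)
          _ ≤ _ := by gcongr
      have h4 := rho_pow_le (i := k) (j := K) (by omega)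
      have h5 : (1 : ℝ) / 2 ^ (K + 1) ≤ 1 := by
        rw [div_le_one (by positivity)]
        exact one_le_pow₀ one_le_two
      have h6 : Y ^ 2 ≤ Y ^ 7 := pow_le_pow_right₀ (by linarith) (by norm_num)
      have h7 := rho_pos k
      calc 2 * Y ^ 2 * ‖z‖ ^ NN K ≤ 2 * Y ^ 7 * rho k ^ (NN K / 2) := by gcongr
        _ ≤ _ := h4
        _ ≤ 1 := h5
    have h3 : (1 - qf L (z ^ NN K)).re ≤ 2 := by
      have h4 := (abs_le.mp (Complex.abs_re_le_norm (qf L (z ^ NN K)))).1
      rw [Complex.sub_re, Complex.one_re]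
      linarith
    have h4 : 2 * A / ((L : ℝ) + 1) ≤ 1 / 2 := by
      rw [hLr, hA, div_le_iff₀ (by positivity)]
      have h16 : 16 * Y ≤ Y * Y := by
        apply mul_le_mul_of_nonneg_right _ hY0.le
        linarith
      linarith
    have h5 : 0 ≤ 2 * A / ((L : ℝ) + 1) := by positivity
    have h6 : 0 ≤ (1 - qf L (z ^ NN K)).re := one_sub_qf_re_nonneg L (hwK z hzK.le)
    have h7 : 2 * A / ((L : ℝ) + 1) * (1 - qf L (z ^ NN K)).re ≤ 1 / 2 * 2 :=
      mul_le_mul h4 h3 h6 (by norm_num)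
    linarith
  have hfin : ‖p.eval z‖ ^ 2 ≤ Real.exp 2 * ((2 / del k) * (2917 * Y ^ 35)) := by
    have h1 : ‖p.eval z‖ ≤ Real.exp 1 * ‖p.eval z * ψ z‖ := by
      rw [norm_mul]
      calc ‖p.eval z‖ = Real.exp 1 * (‖p.eval z‖ * Real.exp (-1)) := by
            rw [mul_comm (‖p.eval z‖), ← mul_assoc, ← Real.exp_add]; simp
        _ ≤ _ := by gcongr
    calc ‖p.eval z‖ ^ 2 ≤ (Real.exp 1 * ‖p.eval z * ψ z‖) ^ 2 := by gcongr
      _ = Real.exp 2 * ‖p.eval z * ψ z‖ ^ 2 := by
          rw [mul_pow, ← Real.exp_nat_mul]; norm_num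
      _ ≤ _ := by gcongr
  have hnum : Real.exp 2 * ((2 / del k) * (2917 * Y ^ 35)) ≤ Real.exp (8 * y) := by
    have h1 : Real.exp 2 ≤ 9 := by
      have h3 : (2 : ℝ) = ((2 : ℕ) : ℝ) * 1 := by norm_num
      rw [h3, Real.exp_nat_mul]
      calc Real.exp 1 ^ 2 ≤ 3 ^ 2 := by
            have := Real.exp_one_lt_d9
            gcongr
            linarith
        _ = 9 := by norm_num
    have hN := NN_real_pos k
    have h2 : Real.exp 2 * ((2 / del k) * (2917 * Y ^ 35)) =
        Real.exp 2 * 5834 * (NN k : ℝ) * y ^ 330 := by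
      unfold del
      rw [hYy, ← hydef]
      field_simp
      ring
    rw [h2]
    have h3 : Real.exp 2 * 5834 ≤ y := by linarith
    have h4 : (NN k : ℝ) ≤ Real.exp y := by
      rw [← exp_log_NN, ← hydef]
      apply Real.exp_le_exp.mpr
      have := Real.log_two_lt_d9
      nlinarith
    have h5 : y ^ 331 ≤ Real.exp (4 * y) := by
      have h6 : y = Real.exp ((ee k : ℝ) * Real.log 2) := (exp_log_yy k).symm
      have h7 : y ^ 331 = Real.exp (((331 : ℕ) : ℝ) * ((ee k : ℝ) * Real.log 2)) := by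
        rw [Real.exp_nat_mul, ← h6]
      rw [h7]
      apply Real.exp_le_exp.mpr
      have h8 := Real.log_two_lt_d9
      have h9 := ee_real k
      have h10 : (0 : ℝ) ≤ ee k := by positivity
      have h11 : (ee k : ℝ) * Real.log 2 ≤ (ee k : ℝ) * 0.7 := by gcongr; linarith
      push_cast
      linarith
    calc Real.exp 2 * 5834 * (NN k : ℝ) * y ^ 330 ≤ y * Real.exp y * y ^ 330 := by gcongr
      _ = Real.exp y * y ^ 331 := by ring
      _ ≤ Real.exp y * Real.exp (4 * y) := by gcongr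
      _ = Real.exp (5 * y) := by rw [← Real.exp_add]; ring_nf
      _ ≤ _ := by
          apply Real.exp_le_exp.mpr
          linarith
  have h8 : Real.exp (8 * y) = Real.exp (4 * y) ^ 2 := by
    rw [← Real.exp_nat_mul]; push_cast; ring_nf
  have h9 : ‖p.eval z‖ ^ 2 ≤ Real.exp (4 * y) ^ 2 := by
    rw [← h8]; exact hfin.trans hnum
  exact le_of_sq_le_sq h9 (Real.exp_pos _).le

end Pool.Agent.helper68.Cyc
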